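import Mathlib

set_option autoImplicit false
open Finset

namespace ConfC

/-- real inner product of two vectors -/
noncomputable def ip {N : ℕ} (x y : Fin N → ℝ) : ℝ := ∑ c, x c * y c

/-- the matrix `(G - J)/4`, `G` the Gram matrix -/
noncomputable def Cm {ι : Type} {N : ℕ} (X : ι → Fin N → ℝ) : Matrix ι ι ℝ :=
  Matrix.of fun i j => (ip (X i) (X j) - 1) / 4

/-- the defect matrix: zero diagonal, off-diagonal entries `(1 - ip)/4` -/
noncomputable def Am {ι : Type} [DecidableEq ι] {N : ℕ} (X : ι → Fin N → ℝ) : Matrix ι ι ℝ :=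
  Matrix.of fun i j => if i = j then 0 else (1 - ip (X i) (X j)) / 4

/-- number of agreements of two `±1` words -/
noncomputable def agr {N : ℕ} (x y : Fin N → ℝ) : ℝ := ((N : ℝ) + ip x y) / 2

/-- a family of `±1` words with pairwise inner products at most 1 -/
def Code {ι : Type} {N : ℕ} (X : ι → Fin N → ℝ) : Prop :=
  (∀ i c, X i c = 1 ∨ X i c = -1) ∧ ∀ i j, i ≠ j → ip (X i) (X j) ≤ 1

/-- `s` is a fixed point free involution of `S`, and `X i`, `X (s i)` agree in at most `t` places -/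
def Mat {ι : Type} {N : ℕ} (X : ι → Fin N → ℝ) (S : Finset ι) (s : ι → ι) (t : ℝ) : Prop :=
  ∀ i ∈ S, s i ∈ S ∧ s i ≠ i ∧ s (s i) = i ∧ agr (X i) (X (s i)) ≤ t

/-- half difference of `X i` and `X (s i)` for `i ∈ S`, the word `X i` itself otherwise -/
noncomputable def yv {ι : Type} [DecidableEq ι] {N : ℕ} (X : ι → Fin N → ℝ) (S : Finset ι)
    (s : ι → ι) (i : ι) (c : Fin N) : ℝ :=
  if i ∈ S then (X i c - X (s i) c) / 2 else X i c

/-- half sum of `X i` and `X (s i)` -/
noncomputable def vv {ι : Type} {N : ℕ} (X : ι → Fin N → ℝ)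
    (s : ι → ι) (i : ι) (c : Fin N) : ℝ :=
  (X i c + X (s i) c) / 2

end ConfC
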