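import Pool.Agent.Helper468.Conf.Defs

set_option autoImplicit false
open Finset

namespace ConfC



theorem am_nonneg {ι : Type} [Fintype ι] [DecidableEq ι] {N : ℕ} (X : ι → Fin N → ℝ)
    (hX : Code X) :
    (∀ i j, Am X i j = Am X j i) ∧ (∀ i, Am X i i = 0) ∧ (∀ i j, 0 ≤ Am X i j) ∧
    0 ≤ ((Am X) ^ 3).trace := by
  have hsymm : ∀ x y : Fin N → ℝ, ip x y = ip y x := by
    intro x y
    unfold ip
    exact Finset.sum_congr rfl (fun c _ => mul_comm _ _)
  have h0 : ∀ i j, 0 ≤ Am X i j := by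
    intro i j
    unfold Am
    rw [Matrix.of_apply]
    split_ifs with h
    · exact le_rfl
    · have := hX.2 i j h
      linarith
  refine ⟨?_, ?_, h0, ?_⟩
  · intro i j
    unfold Am
    rw [Matrix.of_apply, Matrix.of_apply]
    by_cases h : i = j
    · rw [if_pos h, if_pos h.symm]
    · rw [if_neg h, if_neg (fun h' => h h'.symm), hsymm]
  · intro i
    unfold Am
    rw [Matrix.of_apply, if_pos rfl]
  · have h2 : ∀ i j, 0 ≤ ((Am X) ^ 2) i j := by
      intro i j
      rw [pow_two, Matrix.mul_apply]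
      exact Finset.sum_nonneg (fun k _ => mul_nonneg (h0 i k) (h0 k j))
    have h3 : ∀ i j, 0 ≤ ((Am X) ^ 3) i j := by
      intro i j
      rw [pow_succ, Matrix.mul_apply]
      exact Finset.sum_nonneg (fun k _ => mul_nonneg (h2 i k) (h0 k j))
    unfold Matrix.trace
    exact Finset.sum_nonneg (fun i _ => h3 i i)

end ConfC
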