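import Pool.Agent.Helper468.Conf.Defs

set_option autoImplicit false
open Finset

namespace ConfC



theorem cm_eq {ι : Type} [Fintype ι] [DecidableEq ι] (k : ℕ) (X : ι → Fin (4 * k + 1) → ℝ)
    (hX : ∀ i c, X i c = 1 ∨ X i c = -1) :
    Cm X = (k : ℝ) • (1 : Matrix ι ι ℝ) - Am X := by
  ext i j
  rw [Matrix.sub_apply, Matrix.smul_apply, Matrix.one_apply]
  unfold Cm Am
  rw [Matrix.of_apply, Matrix.of_apply]
  by_cases hij : i = j
  · subst hij
    rw [if_pos rfl, if_pos rfl]
    have h1 : ip (X i) (X i) = 4 * (k : ℝ) + 1 := by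
      unfold ip
      have h2 : ∀ c ∈ (Finset.univ : Finset (Fin (4 * k + 1))), X i c * X i c = 1 := by
        intro c _
        rcases hX i c with h | h <;> rw [h] <;> norm_num
      rw [Finset.sum_congr rfl h2, Finset.sum_const, Finset.card_univ, Fintype.card_fin]
      simp
    rw [h1, smul_eq_mul]
    ring
  · rw [if_neg hij, if_neg hij, smul_zero]
    ring

end ConfC
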