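import Pool.Agent.Helper468.Conf.Defs

set_option autoImplicit false
open Finset

namespace ConfC



theorem cm_herm {ι : Type} [Fintype ι] {N : ℕ} (X : ι → Fin N → ℝ) :
    (Cm X).IsHermitian := by
  refine Matrix.IsHermitian.ext fun i j => ?_
  simp only [Cm, Matrix.of_apply, ip, star_trivial]
  congr 2
  exact Finset.sum_congr rfl fun c _ => mul_comm _ _

end ConfC
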