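import Pool.Agent.Helper468.Conf.Defs

set_option autoImplicit false
open Finset

namespace ConfC



theorem quad {ι : Type} [Fintype ι] {N : ℕ} (X : ι → Fin N → ℝ) (w : ι → ℝ) :
    dotProduct w ((Cm X).mulVec w) =
      ((∑ c, (∑ i, w i * X i c) ^ 2) - (∑ i, w i) ^ 2) / 4 := by
  have h1 : ∑ c, (∑ i, w i * X i c) ^ 2 = ∑ i, ∑ j, ∑ c, (w i * X i c) * (w j * X j c) := by
    have e : ∀ c, (∑ i, w i * X i c) ^ 2 = ∑ i, ∑ j, (w i * X i c) * (w j * X j c) := fun c => by
      rw [sq, Finset.sum_mul_sum]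
    simp only [e]
    rw [Finset.sum_comm]
    refine Finset.sum_congr rfl fun i _ => ?_
    rw [Finset.sum_comm]
  have h2 : (∑ i, w i) ^ 2 = ∑ i, ∑ j, w i * w j := by
    rw [sq, Finset.sum_mul_sum]
  rw [h1, h2, ← Finset.sum_sub_distrib, Finset.sum_div]
  simp only [dotProduct, Matrix.mulVec, Cm, ip, Matrix.of_apply]
  refine Finset.sum_congr rfl fun i _ => ?_
  rw [← Finset.sum_sub_distrib, Finset.sum_div, Finset.mul_sum]
  refine Finset.sum_congr rfl fun j _ => ?_
  have h3 : ∑ c, (w i * X i c) * (w j * X j c) = w i * w j * ∑ c, X i c * X j c := by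
    rw [Finset.mul_sum]
    exact Finset.sum_congr rfl fun c _ => by ring
  rw [h3]
  ring

end ConfC
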