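import Pool.Agent.Helper468.Conf.Defs
import Pool.Agent.Helper468.Conf.P_quad

set_option autoImplicit false
open Finset

namespace ConfC



theorem eig_low {ι : Type} [Fintype ι] [DecidableEq ι] {N : ℕ} (X : ι → Fin N → ℝ)
    (hC : (Cm X).IsHermitian) (i : ι) :
    -((Fintype.card ι : ℝ) / 4) ≤ hC.eigenvalues i := by
  set w : ι → ℝ := ⇑(hC.eigenvectorBasis i) with hw
  have h1 : (Cm X).mulVec w = hC.eigenvalues i • w := hC.mulVec_eigenvectorBasis i
  have hn : ∑ j, w j ^ 2 = 1 := by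
    have h2 : ‖hC.eigenvectorBasis i‖ = 1 := hC.eigenvectorBasis.orthonormal.1 i
    have h3 := EuclideanSpace.real_norm_sq_eq (hC.eigenvectorBasis i)
    rw [h2, one_pow] at h3
    exact h3.symm
  have hd : dotProduct w ((Cm X).mulVec w) = hC.eigenvalues i := by
    rw [h1, dotProduct_smul]
    have : dotProduct w w = 1 := by
      rw [← hn]
      exact Finset.sum_congr rfl fun j _ => (sq (w j)).symm
    rw [this, smul_eq_mul, mul_one]
  rw [← hd, quad]
  have h4 : (∑ j, w j) ^ 2 ≤ (Fintype.card ι : ℝ) * ∑ j, w j ^ 2 := by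
    have := sq_sum_le_card_mul_sum_sq (s := Finset.univ) (f := w)
    rwa [Finset.card_univ] at this
  rw [hn, mul_one] at h4
  have h5 : 0 ≤ ∑ c, (∑ i, w i * X i c) ^ 2 := Finset.sum_nonneg fun c _ => sq_nonneg _
  linarith

end ConfC
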