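import Pool.Agent.Helper468.Conf.Defs

set_option autoImplicit false
open Finset

namespace ConfC



theorem num2a {ι : Type} [Fintype ι] [DecidableEq ι] (c : ι → ℝ) (k : ℕ) (q : ℝ) (hk : 1 ≤ k)
    (hM : Fintype.card ι = 8 * k + 5)
    (h1 : ∑ i, c i ^ 1 = (Fintype.card ι : ℝ) * k)
    (h2 : ∑ i, c i ^ 2 = (Fintype.card ι : ℝ) * (k : ℝ) ^ 2 + q)
    (hpos : (univ.filter (fun i => 0 < c i)).card ≤ 4 * k + 1) :
    (Fintype.card ι : ℝ) * (k : ℝ) ^ 2 ≤ q := by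
  classical
  set P : Finset ι := univ.filter (fun i => 0 < c i) with hP
  have hMr : (Fintype.card ι : ℝ) = 8 * k + 5 := by rw [hM]; push_cast; ring
  have hk0 : (0 : ℝ) ≤ k := Nat.cast_nonneg k
  have e1 : ∑ i, c i = (Fintype.card ι : ℝ) * k := by
    rw [← h1]
    exact Finset.sum_congr rfl (fun i _ => (pow_one _).symm)
  have hsplit : ∑ i, c i = ∑ i ∈ P, c i + ∑ i ∈ univ.filter (fun i => ¬ 0 < c i), c i :=
    (Finset.sum_filter_add_sum_filter_not univ (fun i => 0 < c i) c).symm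
  have hneg : ∑ i ∈ univ.filter (fun i => ¬ 0 < c i), c i ≤ 0 := by
    apply Finset.sum_nonpos
    intro i hi
    exact not_lt.mp (Finset.mem_filter.mp hi).2
  have hge : (Fintype.card ι : ℝ) * k ≤ ∑ i ∈ P, c i := by rw [← e1]; linarith
  have hcs : (∑ i ∈ P, c i) ^ 2 ≤ (P.card : ℝ) * ∑ i ∈ P, c i ^ 2 := sq_sum_le_card_mul_sum_sq
  have hsub : ∑ i ∈ P, c i ^ 2 ≤ ∑ i, c i ^ 2 :=
    Finset.sum_le_sum_of_subset_of_nonneg (Finset.filter_subset _ _) (fun i _ _ => sq_nonneg _)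
  have hPc : (P.card : ℝ) ≤ 4 * k + 1 := by exact_mod_cast hpos
  have hS0 : 0 ≤ ∑ i, c i ^ 2 := Finset.sum_nonneg (fun i _ => sq_nonneg _)
  have hMk0 : 0 ≤ (Fintype.card ι : ℝ) * k := by positivity
  have h5 : ((Fintype.card ι : ℝ) * k) ^ 2 ≤ (4 * k + 1) * ((Fintype.card ι : ℝ) * (k : ℝ) ^ 2 + q) := by
    calc ((Fintype.card ι : ℝ) * k) ^ 2 ≤ (∑ i ∈ P, c i) ^ 2 := by
          apply pow_le_pow_left₀ hMk0 hge
      _ ≤ (P.card : ℝ) * ∑ i ∈ P, c i ^ 2 := hcs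
      _ ≤ (P.card : ℝ) * ∑ i, c i ^ 2 := by
          apply mul_le_mul_of_nonneg_left hsub (Nat.cast_nonneg _)
      _ ≤ (4 * k + 1) * ∑ i, c i ^ 2 := mul_le_mul_of_nonneg_right hPc hS0
      _ = _ := by rw [h2]
  rw [hMr] at h5 ⊢
  have h6 : (4 * (k : ℝ) + 1) * ((8 * k + 5) * (k : ℝ) ^ 2) ≤ (4 * k + 1) * q := by
    have : 0 ≤ (8 * (k : ℝ) + 5) * (k : ℝ) ^ 2 := by positivity
    nlinarith [h5, this]
  exact le_of_mul_le_mul_left h6 (by positivity)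

end ConfC
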