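import Pool.Agent.Helper468.Conf.Defs

set_option autoImplicit false
open Finset

namespace ConfC



theorem num2b_split {ι : Type} [Fintype ι] [DecidableEq ι] (c : ι → ℝ) (B : ℝ) (hB : 0 ≤ B)
    (hneg : (univ.filter (fun i => c i < 0)).card ≤ 1) (hlow : ∀ i, -B ≤ c i) :
    ∃ η : ℝ, 0 ≤ η ∧ η ≤ B ∧ ∀ f : ℝ → ℝ, f 0 = 0 →
      ∑ i, f (c i) = ∑ i ∈ univ.filter (fun i => 0 < c i), f (c i) + f (-η) := by
  have hsplit : ∀ f : ℝ → ℝ, f 0 = 0 → ∑ i, f (c i) =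
      ∑ i ∈ univ.filter (fun i => 0 < c i), f (c i) +
      ∑ i ∈ univ.filter (fun i => c i < 0), f (c i) := by
    intro f hf
    rw [Finset.sum_filter, Finset.sum_filter, ← Finset.sum_add_distrib]
    refine Finset.sum_congr rfl fun i _ => ?_
    rcases lt_trichotomy (c i) 0 with h | h | h
    · rw [if_neg (by linarith), if_pos h, zero_add]
    · rw [h, hf]; simp
    · rw [if_pos h, if_neg (by linarith), add_zero]
  rcases Nat.le_one_iff_eq_zero_or_eq_one.1 hneg with h | h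
  · refine ⟨0, le_rfl, hB, fun f hf => ?_⟩
    rw [hsplit f hf, Finset.card_eq_zero.1 h]
    simp [hf]
  · obtain ⟨i0, hi0⟩ := Finset.card_eq_one.1 h
    have hmem : i0 ∈ univ.filter (fun i => c i < 0) := by rw [hi0]; simp
    have hneg0 : c i0 < 0 := (Finset.mem_filter.1 hmem).2
    refine ⟨-c i0, by linarith, by linarith [hlow i0], fun f hf => ?_⟩
    rw [hsplit f hf, hi0]
    simp

theorem num2b_real (K η q t W U S1 S2 S3 M p : ℝ) (hK : 5 ≤ K) (hη0 : 0 ≤ η)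
    (hη : η ≤ M / 4) (hM : M = 8 * K + 5) (ht : 0 ≤ t) (hp : p ≤ 4 * K + 1)
    (h1 : S1 = M * K + η) (h2 : S2 = M * K ^ 2 + q - η ^ 2)
    (h3 : S3 = M * K ^ 3 + 3 * K * q - t + η ^ 3)
    (hW : W = 4 * K ^ 2 * S1 - 4 * K * S2 + S3) (hU : U = S2 - 4 * K * S1 + 4 * K ^ 2 * p) :
    W + K * U ≤ 21 * K ^ 3 := by
  have hη2 : η ≤ 9 / 4 * K := by linarith
  have e1 : W + K * U = -2 * M * K ^ 3 - t + 3 * K * η ^ 2 + η ^ 3 + 4 * K ^ 3 * p := by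
    rw [hW, hU, h1, h2, h3]; ring
  have hK0 : 0 < K := by linarith
  have h4 : 4 * K ^ 3 * p ≤ 4 * K ^ 3 * (4 * K + 1) :=
    mul_le_mul_of_nonneg_left hp (by positivity)
  have h5 : η ^ 2 ≤ (9 / 4 * K) ^ 2 := pow_le_pow_left₀ hη0 hη2 2
  have h6 : η ^ 3 ≤ (9 / 4 * K) ^ 3 := pow_le_pow_left₀ hη0 hη2 3
  have h7 : 3 * K * η ^ 2 ≤ 3 * K * (9 / 4 * K) ^ 2 := mul_le_mul_of_nonneg_left h5 (by positivity)
  rw [e1, hM]
  have h8 : 0 < K ^ 3 := by positivity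
  nlinarith [h4, h6, h7, h8, ht]

theorem num2b {ι : Type} [Fintype ι] [DecidableEq ι] (c : ι → ℝ) (k : ℕ) (q t : ℝ) (hk : 5 ≤ k)
    (hM : Fintype.card ι = 8 * k + 5) (ht : 0 ≤ t)
    (h1 : ∑ i, c i ^ 1 = (Fintype.card ι : ℝ) * k)
    (h2 : ∑ i, c i ^ 2 = (Fintype.card ι : ℝ) * (k : ℝ) ^ 2 + q)
    (h3 : ∑ i, c i ^ 3 = (Fintype.card ι : ℝ) * (k : ℝ) ^ 3 + 3 * k * q - t)
    (hneg : (univ.filter (fun i => c i < 0)).card ≤ 1)
    (hlow : ∀ i, -((Fintype.card ι : ℝ) / 4) ≤ c i)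
    (hpos : (univ.filter (fun i => 0 < c i)).card ≤ 4 * k + 1) :
    ∑ i, (c i) ^ 2 * (c i - 2 * k) ^ 2 ≤ 240 * (k : ℝ) ^ 4 := by
  obtain ⟨η, hη0, hη, hsum⟩ := num2b_split c ((Fintype.card ι : ℝ) / 4) (by positivity) hneg hlow
  obtain ⟨P, hP⟩ : ∃ P : Finset ι, P = univ.filter (fun i => 0 < c i) := ⟨_, rfl⟩
  rw [← hP] at hpos
  have hcP : ∀ i ∈ P, 0 < c i := fun i hi => by
    rw [hP] at hi; exact (Finset.mem_filter.1 hi).2
  have hsum' : ∀ f : ℝ → ℝ, f 0 = 0 → ∑ i, f (c i) = ∑ i ∈ P, f (c i) + f (-η) := by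
    intro f hf
    rw [hP]; exact hsum f hf
  have s1 := hsum' (fun x => x ^ 1) (by norm_num)
  have s2 := hsum' (fun x => x ^ 2) (by norm_num)
  have s3 := hsum' (fun x => x ^ 3) (by norm_num)
  have s4 := hsum' (fun x => x ^ 2 * (x - 2 * k) ^ 2) (by norm_num)
  have hK : (5 : ℝ) ≤ (k : ℝ) := by exact_mod_cast hk
  have hM' : (Fintype.card ι : ℝ) = 8 * (k : ℝ) + 5 := by
    rw [hM]; push_cast; ring
  have hp : (P.card : ℝ) ≤ 4 * (k : ℝ) + 1 := by exact_mod_cast hpos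
  have hW : ∑ i ∈ P, c i * (2 * k - c i) ^ 2 = 4 * (k : ℝ) ^ 2 * ∑ i ∈ P, c i ^ 1 -
      4 * k * ∑ i ∈ P, c i ^ 2 + ∑ i ∈ P, c i ^ 3 := by
    rw [Finset.mul_sum, Finset.mul_sum, ← Finset.sum_sub_distrib, ← Finset.sum_add_distrib]
    exact Finset.sum_congr rfl fun i _ => by ring
  have hU : ∑ i ∈ P, (c i - 2 * k) ^ 2 = ∑ i ∈ P, c i ^ 2 - 4 * k * ∑ i ∈ P, c i ^ 1 +
      4 * (k : ℝ) ^ 2 * P.card := by
    have : 4 * (k : ℝ) ^ 2 * P.card = ∑ i ∈ P, 4 * (k : ℝ) ^ 2 := by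
      rw [Finset.sum_const, nsmul_eq_mul, mul_comm]
    rw [this, Finset.mul_sum, ← Finset.sum_sub_distrib, ← Finset.sum_add_distrib]
    exact Finset.sum_congr rfl fun i _ => by ring
  have key := num2b_real (k : ℝ) η q t _ _ (∑ i ∈ P, c i ^ 1) (∑ i ∈ P, c i ^ 2)
    (∑ i ∈ P, c i ^ 3) (Fintype.card ι : ℝ) (P.card : ℝ) hK hη0 hη hM' ht hp
    (by rw [h1] at s1; linarith) (by rw [h2] at s2; linarith)
    (by rw [h3] at s3; linarith) hW hU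
  have hK0 : (0 : ℝ) < k := by linarith
  have hWn : 0 ≤ ∑ i ∈ P, c i * (2 * k - c i) ^ 2 :=
    Finset.sum_nonneg fun i hi => mul_nonneg (hcP i hi).le (sq_nonneg _)
  have hUn : 0 ≤ ∑ i ∈ P, (c i - 2 * k) ^ 2 := Finset.sum_nonneg fun i hi => sq_nonneg _
  have hW21 : ∑ i ∈ P, c i * (2 * k - c i) ^ 2 ≤ 21 * (k : ℝ) ^ 3 := by
    have := mul_nonneg hK0.le hUn
    linarith
  have hU21 : ∑ i ∈ P, (c i - 2 * k) ^ 2 ≤ 21 * (k : ℝ) ^ 2 := by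
    have h5 : (k : ℝ) * ∑ i ∈ P, (c i - 2 * k) ^ 2 ≤ k * (21 * (k : ℝ) ^ 2) := by
      have : (k : ℝ) * (21 * (k : ℝ) ^ 2) = 21 * (k : ℝ) ^ 3 := by ring
      rw [this]; linarith
    exact le_of_mul_le_mul_left h5 hK0
  have hc : ∀ i ∈ P, c i ≤ 33 / 5 * k := by
    intro i hi
    have h6 : (c i - 2 * k) ^ 2 ≤ 21 * (k : ℝ) ^ 2 :=
      (Finset.single_le_sum (f := fun i => (c i - 2 * k) ^ 2) (fun i _ => sq_nonneg _) hi).trans hU21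
    have h7 : c i - 2 * k ≤ 23 / 5 * k := by
      refine le_of_sq_le_sq ?_ (by positivity)
      have : 0 < (k : ℝ) ^ 2 := by positivity
      nlinarith
    linarith
  have hP4 : ∑ i ∈ P, c i ^ 2 * (c i - 2 * k) ^ 2 ≤ 33 / 5 * k * (21 * (k : ℝ) ^ 3) := by
    refine le_trans ?_ (mul_le_mul_of_nonneg_left hW21 (by positivity))
    rw [Finset.mul_sum]
    refine Finset.sum_le_sum fun i hi => ?_
    have h8 : c i ^ 2 * (c i - 2 * k) ^ 2 = c i * (c i * (2 * k - c i) ^ 2) := by ring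
    rw [h8]
    exact mul_le_mul_of_nonneg_right (hc i hi) (mul_nonneg (hcP i hi).le (sq_nonneg _))
  have hη2 : η ≤ 9 / 4 * k := by linarith
  have h9 : (-η) ^ 2 * (-η - 2 * k) ^ 2 ≤ (9 / 4 * (k : ℝ)) ^ 2 * (17 / 4 * k) ^ 2 := by
    have e1 : (-η) ^ 2 * (-η - 2 * k) ^ 2 = η ^ 2 * (η + 2 * k) ^ 2 := by ring
    rw [e1]
    exact mul_le_mul (pow_le_pow_left₀ hη0 hη2 2)
      (pow_le_pow_left₀ (by positivity) (by linarith) 2) (by positivity) (by positivity)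
  rw [s4]
  have h10 : 0 < (k : ℝ) ^ 4 := by positivity
  nlinarith [hP4, h9, h10]

end ConfC
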