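import Pool.Agent.Helper468.Conf.Defs

set_option autoImplicit false
open Finset

namespace ConfC



theorem num_lower {ι : Type} [Fintype ι] [DecidableEq ι] (c : ι → ℝ) (k q t : ℝ) (hk : 0 < k)
    (ht : 0 ≤ t)
    (h1 : ∑ i, c i ^ 1 = (Fintype.card ι : ℝ) * k)
    (h2 : ∑ i, c i ^ 2 = (Fintype.card ι : ℝ) * k ^ 2 + q)
    (h3 : ∑ i, c i ^ 3 = (Fintype.card ι : ℝ) * k ^ 3 + 3 * k * q - t)
    (hneg : (univ.filter (fun i => c i < 0)).card ≤ 1)
    (hlow : ∀ i, -((Fintype.card ι : ℝ) / 4) ≤ c i) :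
    k * q ≤ (Fintype.card ι : ℝ) * k ^ 3
      + ((Fintype.card ι : ℝ) / 4) * (2 * k + (Fintype.card ι : ℝ) / 4) ^ 2 := by
  set M : ℝ := (Fintype.card ι : ℝ) with hM
  have hM0 : 0 ≤ M := by rw [hM]; positivity
  have hsum : ∑ i, c i * (2 * k - c i) ^ 2 = M * k ^ 3 - k * q - t := by
    have e : ∀ i, c i * (2 * k - c i) ^ 2 = 4 * k ^ 2 * c i ^ 1 - 4 * k * c i ^ 2 + c i ^ 3 := by
      intro i; ring
    simp_rw [e]
    rw [Finset.sum_add_distrib, Finset.sum_sub_distrib, ← Finset.mul_sum, ← Finset.mul_sum,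
      h1, h2, h3]
    ring
  have hB : 0 ≤ (M / 4) * (2 * k + M / 4) ^ 2 := by positivity
  have hterm : ∀ i, (if c i < 0 then -((M / 4) * (2 * k + M / 4) ^ 2) else 0) ≤
      c i * (2 * k - c i) ^ 2 := by
    intro i
    split_ifs with h
    · have h4 : -c i ≤ M / 4 := by linarith [hlow i]
      have h5 : (2 * k - c i) ^ 2 ≤ (2 * k + M / 4) ^ 2 := by
        apply pow_le_pow_left₀ (by linarith)
        linarith
      have h6 : (-c i) * (2 * k - c i) ^ 2 ≤ (M / 4) * (2 * k + M / 4) ^ 2 :=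
        mul_le_mul h4 h5 (sq_nonneg _) (by positivity)
      linarith
    · push Not at h
      positivity
  have hle : ∑ i, (if c i < 0 then -((M / 4) * (2 * k + M / 4) ^ 2) else 0) ≤
      ∑ i, c i * (2 * k - c i) ^ 2 := Finset.sum_le_sum fun i _ => hterm i
  rw [hsum, ← Finset.sum_filter, Finset.sum_const, nsmul_eq_mul] at hle
  have hcard : ((univ.filter (fun i => c i < 0)).card : ℝ) ≤ 1 := by exact_mod_cast hneg
  have h7 : ((univ.filter (fun i => c i < 0)).card : ℝ) * ((M / 4) * (2 * k + M / 4) ^ 2) ≤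
      1 * ((M / 4) * (2 * k + M / 4) ^ 2) := mul_le_mul_of_nonneg_right hcard hB
  linarith

end ConfC
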