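import Pool.Agent.Helper468.Conf.Defs
import Pool.Agent.Helper468.Conf.P_quad

set_option autoImplicit false
open Finset

namespace ConfC



theorem one_neg {ι : Type} [Fintype ι] [DecidableEq ι] {N : ℕ} (X : ι → Fin N → ℝ)
    (hC : (Cm X).IsHermitian) :
    (univ.filter (fun i => hC.eigenvalues i < 0)).card ≤ 1 := by
  by_contra hcon
  push Not at hcon
  obtain ⟨i, hi, j, hj, hij⟩ := Finset.one_lt_card.mp hcon
  have ha : hC.eigenvalues i < 0 := (Finset.mem_filter.mp hi).2
  have hb : hC.eigenvalues j < 0 := (Finset.mem_filter.mp hj).2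
  set a := hC.eigenvalues i with hadef
  set b := hC.eigenvalues j with hbdef
  let u : ι → ℝ := ⇑(hC.eigenvectorBasis i)
  let v : ι → ℝ := ⇑(hC.eigenvectorBasis j)
  have hu : (Cm X).mulVec u = a • u := hC.mulVec_eigenvectorBasis i
  have hv : (Cm X).mulVec v = b • v := hC.mulVec_eigenvectorBasis j
  have horth : ∀ p q : ι, dotProduct (⇑(hC.eigenvectorBasis p) : ι → ℝ) (⇑(hC.eigenvectorBasis q) : ι → ℝ) = if p = q then 1 else 0 := by
    intro p q
    have h1 := (orthonormal_iff_ite.mp hC.eigenvectorBasis.orthonormal) q p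
    rw [EuclideanSpace.inner_eq_star_dotProduct] at h1
    simp only [star_trivial] at h1
    rw [h1]
    by_cases h : p = q
    · simp [h]
    · rw [if_neg h, if_neg (fun h' => h h'.symm)]
  have huu : dotProduct u u = 1 := by simpa using horth i i
  have hvv : dotProduct v v = 1 := by simpa using horth j j
  have huv : dotProduct u v = 0 := by
    have := horth i j
    rw [if_neg hij] at this
    exact this
  have hvu : dotProduct v u = 0 := by
    have := horth j i
    rw [if_neg (Ne.symm hij)] at this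
    exact this
  obtain ⟨α, β, hne, hsum⟩ : ∃ α β : ℝ, (α ≠ 0 ∨ β ≠ 0) ∧ α * (∑ k, u k) + β * (∑ k, v k) = 0 := by
    by_cases h : (∑ k, u k) = 0
    · exact ⟨1, 0, Or.inl one_ne_zero, by simp [h]⟩
    · exact ⟨∑ k, v k, -(∑ k, u k), Or.inr (neg_ne_zero.mpr h), by ring⟩
  have hq := quad X (α • u + β • v)
  have hs0 : ∑ k, (α • u + β • v) k = 0 := by
    have : ∑ k, (α • u + β • v) k = α * (∑ k, u k) + β * (∑ k, v k) := by
      simp only [Pi.add_apply, Pi.smul_apply, smul_eq_mul, Finset.sum_add_distrib, Finset.mul_sum]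
    rw [this, hsum]
  rw [hs0] at hq
  have hpos : 0 ≤ ((∑ c, (∑ k, (α • u + β • v) k * X k c) ^ 2) - (0:ℝ) ^ 2) / 4 := by
    have : 0 ≤ ∑ c, (∑ k, (α • u + β • v) k * X k c) ^ 2 := Finset.sum_nonneg (fun c _ => sq_nonneg _)
    linarith
  have hval : dotProduct (α • u + β • v) ((Cm X).mulVec (α • u + β • v)) = α ^ 2 * a + β ^ 2 * b := by
    rw [Matrix.mulVec_add, Matrix.mulVec_smul, Matrix.mulVec_smul, hu, hv]
    simp only [dotProduct_add, add_dotProduct, smul_dotProduct, dotProduct_smul, huu, hvv, huv, hvu, smul_eq_mul]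
    ring
  rw [hval] at hq
  have hneg : α ^ 2 * a + β ^ 2 * b < 0 := by
    rcases hne with h | h
    · have h1 : 0 < α ^ 2 := by positivity
      have h2 : 0 ≤ β ^ 2 := sq_nonneg _
      nlinarith
    · have h1 : 0 < β ^ 2 := by positivity
      have h2 : 0 ≤ α ^ 2 := sq_nonneg _
      nlinarith
  rw [← hq] at hpos
  linarith

end ConfC
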