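import Pool.Agent.Helper468.Conf.Defs
import Pool.Agent.Helper468.Conf.P_quad

set_option autoImplicit false
open Finset

namespace ConfC



theorem pos_count {ι : Type} [Fintype ι] [DecidableEq ι] {N : ℕ} (X : ι → Fin N → ℝ)
    (hC : (Cm X).IsHermitian) :
    (univ.filter (fun i => 0 < hC.eigenvalues i)).card ≤ N := by
  classical
  obtain ⟨u, hu⟩ : ∃ u : ι → ι → ℝ, ∀ i, u i = ⇑(hC.eigenvectorBasis i) := ⟨_, fun _ => rfl⟩
  have hu1 : ∀ i, (Cm X).mulVec (u i) = hC.eigenvalues i • u i := by
    intro i
    rw [hu]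
    exact hC.mulVec_eigenvectorBasis i
  have hu2 : ∀ i j, dotProduct (u i) (u j) = if i = j then 1 else 0 := by
    intro i j
    have h1 := (orthonormal_iff_ite.1 hC.eigenvectorBasis.orthonormal) i j
    rw [← h1, hu, hu, EuclideanSpace.inner_eq_star_dotProduct, dotProduct_comm]
    rfl
  have hli : LinearIndependent ℝ (fun (i : {i // 0 < hC.eigenvalues i}) (c : Fin N) =>
      ∑ a, u i a * X a c) := by
    rw [Fintype.linearIndependent_iff]
    intro g hg
    set w : ι → ℝ := ∑ i : {i // 0 < hC.eigenvalues i}, g i • u i with hw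
    have hwa : ∀ a, w a = ∑ i : {i // 0 < hC.eigenvalues i}, g i * u i a := by
      intro a
      rw [hw, Finset.sum_apply]
      rfl
    have h0 : ∀ c, ∑ a, w a * X a c = 0 := by
      intro c
      have h2 := congrFun hg c
      rw [Finset.sum_apply] at h2
      simp only [Pi.smul_apply, smul_eq_mul, Pi.zero_apply] at h2
      rw [← h2]
      simp only [hwa, Finset.sum_mul, Finset.mul_sum]
      rw [Finset.sum_comm]
      refine Finset.sum_congr rfl fun i _ => Finset.sum_congr rfl fun a _ => by ring
    have h3 := quad X w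
    simp only [h0] at h3
    have h4 : (Cm X).mulVec w = ∑ i : {i // 0 < hC.eigenvalues i},
        (g i * hC.eigenvalues i) • u i := by
      rw [hw, Matrix.mulVec_sum]
      refine Finset.sum_congr rfl fun i _ => ?_
      rw [Matrix.mulVec_smul, hu1, smul_smul]
    have h5 : dotProduct w ((Cm X).mulVec w) = ∑ i : {i // 0 < hC.eigenvalues i},
        (g i) ^ 2 * hC.eigenvalues i := by
      rw [h4, hw, dotProduct_sum]
      refine Finset.sum_congr rfl fun i _ => ?_
      rw [dotProduct_smul, sum_dotProduct]
      simp only [smul_dotProduct, hu2, smul_eq_mul]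
      rw [Finset.sum_eq_single i]
      · simp; ring
      · intro j _ hj
        rw [if_neg (fun h => hj (Subtype.ext h)), mul_zero]
      · intro h; exact absurd (Finset.mem_univ _) h
    have h6 : ∑ i : {i // 0 < hC.eigenvalues i}, (g i) ^ 2 * hC.eigenvalues i ≤ 0 := by
      rw [← h5, h3]
      have : 0 ≤ (∑ i, w i) ^ 2 := sq_nonneg _
      simp
      linarith
    have h7 : ∀ i : {i // 0 < hC.eigenvalues i}, 0 ≤ (g i) ^ 2 * hC.eigenvalues i :=
      fun i => mul_nonneg (sq_nonneg _) i.2.le
    have h8 := (Finset.sum_eq_zero_iff_of_nonneg (fun i _ => h7 i)).1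
      (le_antisymm h6 (Finset.sum_nonneg fun i _ => h7 i))
    intro i
    have h9 := h8 i (Finset.mem_univ i)
    rcases mul_eq_zero.1 h9 with h | h
    · exact pow_eq_zero_iff (two_ne_zero) |>.1 h
    · exact absurd h i.2.ne'
  have h10 := hli.fintype_card_le_finrank
  rw [Module.finrank_fin_fun, Fintype.card_subtype] at h10
  exact h10

end ConfC
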