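import Pool.Agent.Helper468.Conf.Defs

set_option autoImplicit false
open Finset

namespace ConfC



theorem tr_aux_sq {ι : Type} [Fintype ι] [DecidableEq ι] (B : Matrix ι ι ℝ)
    (hs : ∀ i j, B i j = B j i) : (B * B).trace = ∑ i, ∑ j, B i j ^ 2 := by
  unfold Matrix.trace
  refine Finset.sum_congr rfl fun i _ => ?_
  rw [Matrix.diag_apply, Matrix.mul_apply]
  refine Finset.sum_congr rfl fun j _ => ?_
  rw [hs j i]; ring

theorem tr_aux_zero {ι : Type} [Fintype ι] [DecidableEq ι] (A : Matrix ι ι ℝ)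
    (h0 : ∀ i, A i i = 0) : A.trace = 0 := by
  unfold Matrix.trace
  exact Finset.sum_eq_zero fun i _ => h0 i

theorem traces {ι : Type} [Fintype ι] [DecidableEq ι] (A : Matrix ι ι ℝ) (k : ℝ)
    (hs : ∀ i j, A i j = A j i) (h0 : ∀ i, A i i = 0) :
    ((k • (1 : Matrix ι ι ℝ) - A) ^ 1).trace = (Fintype.card ι : ℝ) * k ∧
    ((k • (1 : Matrix ι ι ℝ) - A) ^ 2).trace
      = (Fintype.card ι : ℝ) * k ^ 2 + ∑ i, ∑ j, A i j ^ 2 ∧
    ((k • (1 : Matrix ι ι ℝ) - A) ^ 3).trace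
      = (Fintype.card ι : ℝ) * k ^ 3 + 3 * k * (∑ i, ∑ j, A i j ^ 2) - (A ^ 3).trace ∧
    ∑ i, ∑ j, ((A * A) i j - if i = j then k ^ 2 else 0) ^ 2
      = ((k • (1 : Matrix ι ι ℝ) - A) ^ 4).trace
        - 4 * k * ((k • (1 : Matrix ι ι ℝ) - A) ^ 3).trace
        + 4 * k ^ 2 * ((k • (1 : Matrix ι ι ℝ) - A) ^ 2).trace := by
  have h2 : (k • (1 : Matrix ι ι ℝ) - A) ^ 2 = k ^ 2 • (1 : Matrix ι ι ℝ) - (2 * k) • A + A * A := by
    rw [pow_two, sub_mul, mul_sub, mul_sub]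
    simp only [smul_mul_assoc, mul_smul_comm, one_mul, mul_one, smul_smul]
    rw [pow_two, two_mul, add_smul]
    abel
  have h3 : (k • (1 : Matrix ι ι ℝ) - A) ^ 3
      = k ^ 3 • (1 : Matrix ι ι ℝ) - (3 * k ^ 2) • A + (3 * k) • (A * A) - A ^ 3 := by
    rw [pow_succ, h2]
    simp only [mul_sub, add_mul, sub_mul, smul_mul_assoc, mul_smul_comm, one_mul, mul_one,
      smul_smul, smul_sub, smul_add, pow_succ, pow_zero]
    module
  have htA := tr_aux_zero A h0
  have htAA := tr_aux_sq A hs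
  refine ⟨?_, ?_, ?_, ?_⟩
  · rw [pow_one, Matrix.trace_sub, Matrix.trace_smul, Matrix.trace_one, htA, smul_eq_mul]
    ring
  · rw [h2, Matrix.trace_add, Matrix.trace_sub, Matrix.trace_smul, Matrix.trace_smul,
      Matrix.trace_one, htA, htAA, smul_eq_mul, smul_eq_mul]
    ring
  · rw [h3, Matrix.trace_sub, Matrix.trace_add, Matrix.trace_sub, Matrix.trace_smul,
      Matrix.trace_smul, Matrix.trace_smul,
      Matrix.trace_one, htA, htAA, smul_eq_mul, smul_eq_mul, smul_eq_mul]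
    ring
  · have hB : ∀ i j, ((A * A) i j - if i = j then k ^ 2 else 0)
        = (A * A - k ^ 2 • (1 : Matrix ι ι ℝ)) i j := by
      intro i j
      rw [Matrix.sub_apply, Matrix.smul_apply, Matrix.one_apply, smul_eq_mul]
      split_ifs <;> ring
    have hsAA : ∀ i j, (A * A) i j = (A * A) j i := by
      intro i j
      rw [Matrix.mul_apply, Matrix.mul_apply]
      refine Finset.sum_congr rfl fun l _ => ?_
      rw [hs i l, hs l j]; ring
    have hBs : ∀ i j, (A * A - k ^ 2 • (1 : Matrix ι ι ℝ)) i j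
        = (A * A - k ^ 2 • (1 : Matrix ι ι ℝ)) j i := by
      intro i j
      rw [← hB, ← hB, hsAA i j]
      by_cases h : i = j
      · rw [if_pos h, if_pos h.symm]
      · rw [if_neg h, if_neg (Ne.symm h)]
    have hkey : A * A - k ^ 2 • (1 : Matrix ι ι ℝ)
        = (k • (1 : Matrix ι ι ℝ) - A) ^ 2 - (2 * k) • (k • (1 : Matrix ι ι ℝ) - A) := by
      rw [h2]
      module
    simp only [hB]
    rw [← tr_aux_sq _ hBs, hkey]
    set C : Matrix ι ι ℝ := k • (1 : Matrix ι ι ℝ) - A with hC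
    have hexp : (C ^ 2 - (2 * k) • C) * (C ^ 2 - (2 * k) • C)
        = C ^ 4 - (4 * k) • C ^ 3 + (4 * k ^ 2) • C ^ 2 := by
      have e4 : C ^ 2 * C ^ 2 = C ^ 4 := by rw [← pow_add]
      have e3 : C ^ 2 * C = C ^ 3 := by rw [← pow_succ]
      have e3' : C * C ^ 2 = C ^ 3 := by rw [← pow_succ']
      have e2 : C * C = C ^ 2 := by rw [← pow_two]
      simp only [mul_sub, sub_mul, smul_mul_assoc, mul_smul_comm, smul_smul, smul_sub,
        e4, e3, e3', e2]
      module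
    rw [hexp, Matrix.trace_add, Matrix.trace_sub, Matrix.trace_smul, Matrix.trace_smul,
      smul_eq_mul, smul_eq_mul]

end ConfC
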