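import Pool.Agent.Helper468.Conf.P_trace_pow
import Pool.Agent.Helper468.Conf.P_cm_herm
import Pool.Agent.Helper468.Conf.P_one_neg
import Pool.Agent.Helper468.Conf.P_eig_low
import Pool.Agent.Helper468.Conf.P_pos_count
import Pool.Agent.Helper468.Conf.P_traces
import Pool.Agent.Helper468.Conf.P_cm_eq
import Pool.Agent.Helper468.Conf.P_num_lower
import Pool.Agent.Helper468.Conf.P_num2a
import Pool.Agent.Helper468.Conf.P_num2b
import Pool.Agent.Helper468.Conf.P_rows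
import Pool.Agent.Helper468.Conf.P_am_nonneg

set_option autoImplicit false
open Finset

namespace ConfC

theorem spec {ι : Type} [Fintype ι] [DecidableEq ι] {N : ℕ} (X : ι → Fin N → ℝ) :
    ∃ c : ι → ℝ, (∀ m : ℕ, ∑ i, c i ^ m = ((Cm X) ^ m).trace) ∧
      (univ.filter (fun i => c i < 0)).card ≤ 1 ∧
      (∀ i, -((Fintype.card ι : ℝ) / 4) ≤ c i) ∧
      (univ.filter (fun i => 0 < c i)).card ≤ N := by
  have hC := cm_herm X
  exact ⟨hC.eigenvalues, fun m => trace_pow _ hC m, one_neg X hC, eig_low X hC, pos_count X hC⟩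

theorem s1a {ι : Type} [Fintype ι] [DecidableEq ι] (k : ℕ) (hk : 1 ≤ k)
    (X : ι → Fin (4 * k + 1) → ℝ) (hX : Code X) :
    (k : ℝ) * (∑ i, ∑ j, Am X i j ^ 2) ≤ (Fintype.card ι : ℝ) * (k : ℝ) ^ 3
      + ((Fintype.card ι : ℝ) / 4) * (2 * (k : ℝ) + (Fintype.card ι : ℝ) / 4) ^ 2 := by
  obtain ⟨c, hc, hn, hl, -⟩ := spec X
  obtain ⟨hs, h0, hnn, ht⟩ := am_nonneg X hX
  obtain ⟨t1, t2, t3, -⟩ := traces (Am X) (k : ℝ) hs h0
  have he := cm_eq k X hX.1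
  have hk' : (0 : ℝ) < k := by exact_mod_cast hk
  refine num_lower c (k : ℝ) _ ((Am X) ^ 3).trace hk' ht ?_ ?_ ?_ hn hl
  · rw [hc, he, t1]
  · rw [hc, he, t2]
  · rw [hc, he, t3]

theorem s1b {ι : Type} [Fintype ι] [DecidableEq ι] (k : ℕ) (hk : 5 ≤ k)
    (X : ι → Fin (4 * k + 1) → ℝ) (hX : Code X) (hM : Fintype.card ι = 8 * k + 5) :
    (Fintype.card ι : ℝ) * (k : ℝ) ^ 2 ≤ ∑ i, ∑ j, Am X i j ^ 2 ∧
    ∑ i, ∑ j, ((Am X * Am X) i j - if i = j then (k : ℝ) ^ 2 else 0) ^ 2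
      ≤ 240 * (k : ℝ) ^ 4 := by
  obtain ⟨c, hc, hn, hl, hp⟩ := spec X
  obtain ⟨hs, h0, hnn, ht⟩ := am_nonneg X hX
  obtain ⟨t1, t2, t3, t4⟩ := traces (Am X) (k : ℝ) hs h0
  have he := cm_eq k X hX.1
  have h1 : ∑ i, c i ^ 1 = (Fintype.card ι : ℝ) * k := by rw [hc, he, t1]
  have h2 : ∑ i, c i ^ 2 = (Fintype.card ι : ℝ) * (k : ℝ) ^ 2 + ∑ i, ∑ j, Am X i j ^ 2 := by
    rw [hc, he, t2]
  have h3 : ∑ i, c i ^ 3 = (Fintype.card ι : ℝ) * (k : ℝ) ^ 3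
      + 3 * k * (∑ i, ∑ j, Am X i j ^ 2) - ((Am X) ^ 3).trace := by rw [hc, he, t3]
  refine ⟨num2a c k _ (by omega) hM h1 h2 hp, ?_⟩
  have h5 := num2b c k _ _ hk hM ht h1 h2 h3 hn hl hp
  rw [t4, ← he, ← hc, ← hc, ← hc]
  have : ∑ i, (c i) ^ 2 * (c i - 2 * k) ^ 2
      = ∑ i, c i ^ 4 - 4 * (k : ℝ) * ∑ i, c i ^ 3 + 4 * (k : ℝ) ^ 2 * ∑ i, c i ^ 2 := by
    rw [Finset.mul_sum, Finset.mul_sum, ← Finset.sum_sub_distrib, ← Finset.sum_add_distrib]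
    refine Finset.sum_congr rfl fun i _ => by ring
  rw [← this]
  exact h5

end ConfC
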