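import Pool.Agent.Helper468.Conf.Defs

set_option autoImplicit false
open Finset

namespace ConfC



theorem f1b {ι : Type} [Fintype ι] [DecidableEq ι] {N : ℕ} (X : ι → Fin N → ℝ)
    (hX : ∀ i c, X i c = 1 ∨ X i c = -1) (S : Finset ι) (s : ι → ι) :
    ∑ c, (∑ i, yv X S s i c ^ 2) ^ 2
      = (N : ℝ) * (Fintype.card ι : ℝ) ^ 2
        - 2 * (Fintype.card ι : ℝ) * (∑ i ∈ S, agr (X i) (X (s i)))
        + ∑ c, (∑ i ∈ S, vv X s i c ^ 2) ^ 2 := by
  classical
  have hX2 : ∀ i c, X i c ^ 2 = 1 := by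
    intro i c
    rcases hX i c with h | h <;> rw [h] <;> norm_num
  have h1 : ∀ c, ∑ i, yv X S s i c ^ 2 = (Fintype.card ι : ℝ) - ∑ i ∈ S, vv X s i c ^ 2 := by
    intro c
    have h2 : ∀ i, yv X S s i c ^ 2 = 1 - (if i ∈ S then vv X s i c ^ 2 else 0) := by
      intro i
      unfold yv vv
      have ha := hX2 i c
      have hb := hX2 (s i) c
      by_cases hi : i ∈ S
      · rw [if_pos hi, if_pos hi]
        linear_combination (1 / 2) * ha + (1 / 2) * hb
      · rw [if_neg hi, if_neg hi, ha, sub_zero]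
    rw [Finset.sum_congr rfl (fun i _ => h2 i), Finset.sum_sub_distrib, Finset.sum_const,
      Finset.card_univ, nsmul_eq_mul, mul_one, Finset.sum_ite_mem, Finset.univ_inter]
  have h3 : ∑ c, ∑ i ∈ S, vv X s i c ^ 2 = ∑ i ∈ S, agr (X i) (X (s i)) := by
    rw [Finset.sum_comm]
    apply Finset.sum_congr rfl
    intro i _
    unfold agr ip
    have h4 : ∀ c, vv X s i c ^ 2 = (1 + X i c * X (s i) c) / 2 := by
      intro c
      unfold vv
      have ha := hX2 i c
      have hb := hX2 (s i) c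
      linear_combination (1 / 4) * ha + (1 / 4) * hb
    rw [Finset.sum_congr rfl (fun c _ => h4 c), ← Finset.sum_div, Finset.sum_add_distrib,
      Finset.sum_const, Finset.card_univ, Fintype.card_fin, nsmul_eq_mul, mul_one]
  have h5 : ∀ c, (∑ i, yv X S s i c ^ 2) ^ 2 = (Fintype.card ι : ℝ) ^ 2 -
      2 * (Fintype.card ι : ℝ) * (∑ i ∈ S, vv X s i c ^ 2) + (∑ i ∈ S, vv X s i c ^ 2) ^ 2 := by
    intro c
    rw [h1 c]
    ring
  rw [Finset.sum_congr rfl (fun c _ => h5 c), Finset.sum_add_distrib, Finset.sum_sub_distrib,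
    Finset.sum_const, Finset.card_univ, Fintype.card_fin, nsmul_eq_mul, ← Finset.mul_sum, h3]

end ConfC
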