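import Pool.Agent.Helper468.Conf.Defs

set_option autoImplicit false
open Finset

namespace ConfC



theorem f3_yy {ι : Type} [DecidableEq ι] {N : ℕ} (X : ι → Fin N → ℝ)
    (hX : Code X) (S : Finset ι) (s : ι → ι) (t : ℝ) (hM : Mat X S s t) (i : ι) (hi : i ∈ S) :
    ip (yv X S s i) (yv X S s i) = N - agr (X i) (X (s i)) ∧
    ip (yv X S s i) (yv X S s (s i)) = -(N - agr (X i) (X (s i))) ∧
    ip (vv X s i) (vv X s i) = agr (X i) (X (s i)) ∧
    ip (vv X s i) (vv X s (s i)) = agr (X i) (X (s i)) := by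
  obtain ⟨h1, h2, h3, h4⟩ := hM i hi
  have sq1 : ∀ j c, X j c * X j c = 1 := by
    intro j c
    rcases hX.1 j c with h | h <;> rw [h] <;> norm_num
  have hN : (N : ℝ) = ∑ _c : Fin N, (1 : ℝ) := by simp
  have hy : ∀ c, yv X S s i c = (X i c - X (s i) c) / 2 := by
    intro c; simp [yv, hi]
  have hy' : ∀ c, yv X S s (s i) c = (X (s i) c - X i c) / 2 := by
    intro c; simp [yv, h1, h3]
  have hv' : ∀ c, vv X s (s i) c = (X (s i) c + X i c) / 2 := by
    intro c; simp [vv, h3]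
  have hv : ∀ c, vv X s i c = (X i c + X (s i) c) / 2 := by
    intro c; simp [vv]
  have e1 : (N : ℝ) - agr (X i) (X (s i)) = ∑ c : Fin N, ((1 : ℝ) - X i c * X (s i) c) / 2 := by
    unfold agr ip
    rw [← Finset.sum_div, Finset.sum_sub_distrib, ← hN]
    ring
  have e2 : agr (X i) (X (s i)) = ∑ c : Fin N, ((1 : ℝ) + X i c * X (s i) c) / 2 := by
    unfold agr ip
    rw [← Finset.sum_div, Finset.sum_add_distrib, ← hN]
  refine ⟨?_, ?_, ?_, ?_⟩
  · rw [e1]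
    unfold ip
    apply Finset.sum_congr rfl
    intro c _
    rw [hy]
    have a := sq1 i c
    have b := sq1 (s i) c
    nlinarith
  · rw [e1]
    unfold ip
    rw [← Finset.sum_neg_distrib]
    apply Finset.sum_congr rfl
    intro c _
    rw [hy, hy']
    have a := sq1 i c
    have b := sq1 (s i) c
    nlinarith
  · rw [e2]
    unfold ip
    apply Finset.sum_congr rfl
    intro c _
    rw [hv]
    have a := sq1 i c
    have b := sq1 (s i) c
    nlinarith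
  · rw [e2]
    unfold ip
    apply Finset.sum_congr rfl
    intro c _
    rw [hv, hv']
    have a := sq1 i c
    have b := sq1 (s i) c
    nlinarith

theorem f3 {ι : Type} [Fintype ι] [DecidableEq ι] {N : ℕ} (X : ι → Fin N → ℝ)
    (hX : Code X) (S : Finset ι) (s : ι → ι) (t : ℝ) (hM : Mat X S s t)
    (hyy : ∀ i ∈ S, ∀ j ∈ S, j ≠ i → j ≠ s i →
      |ip (yv X S s i) (yv X S s j)| ≤ 1 - ip (vv X s i) (vv X s j)) :
    ∑ i ∈ S, ∑ j ∈ S, ip (yv X S s i) (yv X S s j) ^ 2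
      ≤ 2 * (S.card : ℝ) * (N : ℝ) ^ 2 - 4 * (N : ℝ) * (∑ i ∈ S, agr (X i) (X (s i)))
        + (S.card : ℝ) ^ 2 - 2 * (S.card : ℝ) + 4 * (∑ i ∈ S, agr (X i) (X (s i)))
        + ∑ i ∈ S, ∑ j ∈ S, ip (vv X s i) (vv X s j) ^ 2 := by
  have row : ∀ i ∈ S, ∑ j ∈ S, ip (yv X S s i) (yv X S s j) ^ 2 ≤
      (2 * (N : ℝ) ^ 2 - 2 - 4 * N * agr (X i) (X (s i)) + 4 * agr (X i) (X (s i)))
      + ∑ j ∈ S, (1 - ip (vv X s i) (vv X s j)) ^ 2 := by
    intro i hi
    obtain ⟨h1, h2, h3, h4⟩ := hM i hi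
    obtain ⟨a1, a2, a3, a4⟩ := f3_yy X hX S s t hM i hi
    have hm : s i ∈ S.erase i := Finset.mem_erase.mpr ⟨h2, h1⟩
    rw [← Finset.sum_erase_add S (fun j => ip (yv X S s i) (yv X S s j) ^ 2) hi,
      ← Finset.sum_erase_add (S.erase i) (fun j => ip (yv X S s i) (yv X S s j) ^ 2) hm,
      ← Finset.sum_erase_add S (fun j => (1 - ip (vv X s i) (vv X s j)) ^ 2) hi,
      ← Finset.sum_erase_add (S.erase i) (fun j => (1 - ip (vv X s i) (vv X s j)) ^ 2) hm]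
    have hrest : ∑ j ∈ (S.erase i).erase (s i), ip (yv X S s i) (yv X S s j) ^ 2 ≤
        ∑ j ∈ (S.erase i).erase (s i), (1 - ip (vv X s i) (vv X s j)) ^ 2 := by
      apply Finset.sum_le_sum
      intro j hj
      rw [Finset.mem_erase, Finset.mem_erase] at hj
      have := hyy i hi j hj.2.2 hj.2.1 hj.1
      rw [← sq_abs]
      exact pow_le_pow_left₀ (abs_nonneg _) this 2
    simp only [a1, a2, a3, a4]
    nlinarith
  have h1 := Finset.sum_le_sum row
  have h2 : ∑ i ∈ S, ∑ j ∈ S, (1 - ip (vv X s i) (vv X s j)) ^ 2 =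
      (S.card : ℝ) ^ 2 - 2 * ∑ i ∈ S, ∑ j ∈ S, ip (vv X s i) (vv X s j)
      + ∑ i ∈ S, ∑ j ∈ S, ip (vv X s i) (vv X s j) ^ 2 := by
    have : ∀ i j, (1 - ip (vv X s i) (vv X s j)) ^ 2 = 1 - 2 * ip (vv X s i) (vv X s j)
      + ip (vv X s i) (vv X s j) ^ 2 := fun i j => by ring
    simp only [this, Finset.sum_add_distrib, Finset.sum_sub_distrib, Finset.sum_const,
      ← Finset.mul_sum, nsmul_eq_mul, mul_one]
    ring
  have h3 : 0 ≤ ∑ i ∈ S, ∑ j ∈ S, ip (vv X s i) (vv X s j) := by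
    have : ∑ i ∈ S, ∑ j ∈ S, ip (vv X s i) (vv X s j) =
        ∑ c : Fin N, (∑ i ∈ S, vv X s i c) * (∑ j ∈ S, vv X s j c) := by
      unfold ip
      simp only [Finset.sum_mul_sum]
      rw [Finset.sum_comm]
      rw [Finset.sum_comm]
      have : ∀ i ∈ S, ∑ j ∈ S, ∑ c : Fin N, vv X s i c * vv X s j c
          = ∑ c : Fin N, ∑ j ∈ S, vv X s i c * vv X s j c := fun i _ => Finset.sum_comm
      rw [Finset.sum_congr rfl this, Finset.sum_comm]
    rw [this]
    exact Finset.sum_nonneg (fun c _ => mul_self_nonneg _)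
  rw [Finset.sum_add_distrib, h2] at h1
  have h4 : ∑ i ∈ S, (2 * (N : ℝ) ^ 2 - 2 - 4 * N * agr (X i) (X (s i))
      + 4 * agr (X i) (X (s i))) = 2 * (S.card : ℝ) * (N : ℝ) ^ 2 - 2 * (S.card : ℝ)
      - 4 * N * (∑ i ∈ S, agr (X i) (X (s i))) + 4 * (∑ i ∈ S, agr (X i) (X (s i))) := by
    rw [Finset.mul_sum, Finset.mul_sum]
    simp only [Finset.sum_add_distrib, Finset.sum_sub_distrib, Finset.sum_const, nsmul_eq_mul]
    ring
  rw [h4] at h1
  linarith

end ConfC
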