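import Pool.Agent.Helper468.Conf.Defs

set_option autoImplicit false
open Finset

namespace ConfC



theorem f4_comm {ι : Type} {N : ℕ} (S : Finset ι) (F : ι → ι → Fin N → Fin N → ℝ) :
    ∑ i ∈ S, ∑ j ∈ S, ∑ c, ∑ d, F i j c d = ∑ c, ∑ d, ∑ i ∈ S, ∑ j ∈ S, F i j c d := by
  refine (Finset.sum_congr rfl fun i _ => Finset.sum_comm).trans ?_
  refine Finset.sum_comm.trans ?_
  refine Finset.sum_congr rfl fun c _ => ?_
  refine (Finset.sum_congr rfl fun i _ => Finset.sum_comm).trans ?_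
  exact Finset.sum_comm

theorem f4 {ι : Type} {N : ℕ} (S : Finset ι) (v : ι → Fin N → ℝ) :
    ∑ i ∈ S, ∑ j ∈ S, ip (v i) (v j) ^ 2
      = ∑ c, (∑ i ∈ S, v i c ^ 2) ^ 2
        + ∑ c, ∑ d ∈ univ.erase c, (∑ i ∈ S, v i c * v i d) ^ 2 := by
  have h1 : ∑ i ∈ S, ∑ j ∈ S, ip (v i) (v j) ^ 2 =
      ∑ c, ∑ d, (∑ i ∈ S, v i c * v i d) ^ 2 := by
    have e1 : ∀ i j, ip (v i) (v j) ^ 2 =
        ∑ c, ∑ d, (v i c * v i d) * (v j c * v j d) := by
      intro i j
      rw [ip, sq, Finset.sum_mul_sum]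
      exact Finset.sum_congr rfl fun c _ => Finset.sum_congr rfl fun d _ => by ring
    rw [Finset.sum_congr rfl fun i _ => Finset.sum_congr rfl fun j _ => e1 i j, f4_comm]
    refine Finset.sum_congr rfl fun c _ => Finset.sum_congr rfl fun d _ => ?_
    rw [sq, Finset.sum_mul_sum]
  rw [h1, ← Finset.sum_add_distrib]
  refine Finset.sum_congr rfl fun c _ => ?_
  rw [← Finset.add_sum_erase univ _ (Finset.mem_univ c)]
  congr 2
  exact Finset.sum_congr rfl fun i _ => by ring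

end ConfC
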