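import Pool.Agent.Helper468.Conf.Defs

set_option autoImplicit false
open Finset

namespace ConfC



theorem f6 {ι : Type} [DecidableEq ι] {N : ℕ} (X : ι → Fin N → ℝ)
    (hX : Code X) (Z : Finset ι) :
    ∑ i ∈ Z, ∑ j ∈ Z, ip (X i) (X j) ^ 2
      ≤ (Z.card : ℝ) * (N : ℝ) ^ 2 + (Z.card : ℝ) ^ 2
        + 16 * ∑ i ∈ Z, ∑ j ∈ Z, Am X i j ^ 2 := by
  have h1 : ∀ i ∈ Z, ∀ j ∈ Z, ip (X i) (X j) ^ 2 ≤
      (if i = j then (N : ℝ) ^ 2 else 0) + 1 + 16 * Am X i j ^ 2 := by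
    intro i _ j _
    by_cases hij : i = j
    · subst hij
      have : ip (X i) (X i) = N := by
        unfold ip
        have : ∀ c, X i c * X i c = 1 := by
          intro c
          rcases hX.1 i c with h | h <;> rw [h] <;> norm_num
        simp [this]
      rw [this, if_pos rfl]
      have := sq_nonneg (Am X i i)
      linarith
    · have hA : Am X i j = (1 - ip (X i) (X j)) / 4 := by simp [Am, hij]
      have h2 := hX.2 i j hij
      rw [if_neg hij, hA]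
      nlinarith
  have h2 : ∑ i ∈ Z, ∑ j ∈ Z, ip (X i) (X j) ^ 2 ≤
      ∑ i ∈ Z, ∑ j ∈ Z, ((if i = j then (N : ℝ) ^ 2 else 0) + 1 + 16 * Am X i j ^ 2) :=
    Finset.sum_le_sum fun i hi => Finset.sum_le_sum fun j hj => h1 i hi j hj
  refine h2.trans (le_of_eq ?_)
  simp only [Finset.sum_add_distrib, Finset.mul_sum]
  have e1 : ∑ i ∈ Z, ∑ j ∈ Z, (if i = j then (N : ℝ) ^ 2 else 0) = (Z.card : ℝ) * (N : ℝ) ^ 2 := by
    have : ∀ i ∈ Z, ∑ j ∈ Z, (if i = j then (N : ℝ) ^ 2 else 0) = (N : ℝ) ^ 2 := by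
      intro i hi
      rw [Finset.sum_ite_eq]
      simp [hi]
    rw [Finset.sum_congr rfl this]
    simp
  rw [e1]
  simp
  ring

end ConfC
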