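import Pool.Agent.Helper468.Conf.Defs

set_option autoImplicit false
open Finset

namespace ConfC



theorem f8a_aux {ι : Type} [DecidableEq ι] {N : ℕ} (X : ι → Fin N → ℝ)
    (hX : Code X) (S : Finset ι) (s : ι → ι) (t : ℝ) (ht : 0 ≤ t) (hM : Mat X S s t)
    (c d : Fin N) (hcd : c ≠ d) (P : Finset ι) (hPS : P ⊆ S) (hPs : ∀ i ∈ P, s i ∈ P)
    (a b : ℝ) (ha : a * a = 1) (hb : b * b = 1) (hc : ∀ i ∈ P, X i c = a)
    (hd : ∀ i ∈ P, X i d = b) : (P.card : ℝ) ≤ 2 * t := by
  obtain ⟨w, hw⟩ : ∃ w : Fin N → ℝ, ∀ e, w e = ∑ i ∈ P, X i e := ⟨_, fun _ => rfl⟩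
  have h1 : ip w w = ∑ i ∈ P, ∑ j ∈ P, ip (X i) (X j) := by
    unfold ip
    have e1 : ∀ e, w e * w e = ∑ i ∈ P, ∑ j ∈ P, X i e * X j e := by
      intro e
      rw [hw, Finset.sum_mul_sum]
    rw [Finset.sum_congr rfl fun e _ => e1 e, Finset.sum_comm]
    apply Finset.sum_congr rfl
    intro i _
    rw [Finset.sum_comm]
  have h2 : ∀ i ∈ P, ∑ j ∈ P, ip (X i) (X j) ≤ 2 * t + P.card - 2 := by
    intro i hi
    obtain ⟨hs1, hs2, hs3, hs4⟩ := hM i (hPS hi)
    have hsi : s i ∈ P.erase i := Finset.mem_erase.2 ⟨hs2, hPs i hi⟩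
    rw [← Finset.add_sum_erase P _ hi, ← Finset.add_sum_erase (P.erase i) _ hsi]
    have e1 : ip (X i) (X i) = N := by
      unfold ip
      have : ∀ e ∈ (Finset.univ : Finset (Fin N)), X i e * X i e = 1 := by
        intro e _
        rcases hX.1 i e with h | h <;> rw [h] <;> norm_num
      rw [Finset.sum_congr rfl this]
      simp
    have e2 : ip (X i) (X (s i)) ≤ 2 * t - N := by
      unfold agr at hs4
      linarith
    have e3 : ∑ j ∈ (P.erase i).erase (s i), ip (X i) (X j) ≤
        (((P.erase i).erase (s i)).card : ℝ) := by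
      have : ∑ j ∈ (P.erase i).erase (s i), ip (X i) (X j) ≤
          ∑ j ∈ (P.erase i).erase (s i), (1 : ℝ) := by
        apply Finset.sum_le_sum
        intro j hj
        apply hX.2
        have := Finset.ne_of_mem_erase (Finset.mem_of_mem_erase hj)
        exact this.symm
      rw [Finset.sum_const, nsmul_eq_mul, mul_one] at this
      exact this
    have e4 : ((P.erase i).erase (s i)).card + 1 + 1 = P.card := by
      rw [Finset.card_erase_add_one hsi, Finset.card_erase_add_one hi]
    have e5 : (((P.erase i).erase (s i)).card : ℝ) + 1 + 1 = P.card := by exact_mod_cast e4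
    linarith
  have h3 : ip w w ≤ P.card * (2 * t + P.card - 2) := by
    rw [h1]
    refine (Finset.sum_le_sum h2).trans ?_
    rw [Finset.sum_const, nsmul_eq_mul]
  have h4 : w c = P.card * a := by
    rw [hw, Finset.sum_congr rfl hc, Finset.sum_const, nsmul_eq_mul]
  have h5 : w d = P.card * b := by
    rw [hw, Finset.sum_congr rfl hd, Finset.sum_const, nsmul_eq_mul]
  have h6 : w c * w c + w d * w d ≤ ip w w := by
    unfold ip
    rw [← Finset.sum_pair hcd (f := fun e => w e * w e)]
    apply Finset.sum_le_sum_of_subset_of_nonneg (Finset.subset_univ _)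
    intro e _ _
    exact mul_self_nonneg _
  have h7 : w c * w c = (P.card : ℝ) * P.card := by
    rw [h4]
    calc (P.card : ℝ) * a * (P.card * a) = P.card * P.card * (a * a) := by ring
      _ = _ := by rw [ha, mul_one]
  have h8 : w d * w d = (P.card : ℝ) * P.card := by
    rw [h5]
    calc (P.card : ℝ) * b * (P.card * b) = P.card * P.card * (b * b) := by ring
      _ = _ := by rw [hb, mul_one]
  rcases Nat.eq_zero_or_pos P.card with h0 | h0
  · rw [h0]; simp; exact ht
  · have h0' : (0 : ℝ) < P.card := by exact_mod_cast h0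
    have h9 : (P.card : ℝ) * (P.card + P.card) ≤ P.card * (2 * t + P.card - 2) := by linarith
    have h10 := le_of_mul_le_mul_left h9 h0'
    linarith

theorem f8a {ι : Type} [DecidableEq ι] {N : ℕ} (X : ι → Fin N → ℝ)
    (hX : Code X) (S : Finset ι) (s : ι → ι) (t : ℝ) (ht : 0 ≤ t) (hM : Mat X S s t)
    (c d : Fin N) (hcd : c ≠ d) :
    ((S.filter (fun i => vv X s i c ≠ 0 ∧ vv X s i d ≠ 0)).card : ℝ) ≤ 8 * t := by
  obtain ⟨P, hP⟩ : ∃ P, P = S.filter (fun i => vv X s i c ≠ 0 ∧ vv X s i d ≠ 0) := ⟨_, rfl⟩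
  rw [← hP]
  have hvv : ∀ i e, vv X s i e ≠ 0 → X (s i) e = X i e := by
    intro i e h
    unfold vv at h
    rcases hX.1 i e with h1 | h1 <;> rcases hX.1 (s i) e with h2 | h2
    · rw [h1, h2]
    · rw [h1, h2] at h; norm_num at h
    · rw [h1, h2] at h; norm_num at h
    · rw [h1, h2]
  have hvs : ∀ i ∈ S, ∀ e, vv X s (s i) e = vv X s i e := by
    intro i hi e
    unfold vv
    rw [(hM i hi).2.2.1, add_comm]
  have key : ∀ a b : ℝ, a * a = 1 → b * b = 1 →
      ((P.filter (fun i => X i c = a ∧ X i d = b)).card : ℝ) ≤ 2 * t := by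
    intro a b ha hb
    apply f8a_aux X hX S s t ht hM c d hcd _ _ _ a b ha hb
    · intro i hi
      exact (Finset.mem_filter.1 hi).2.1
    · intro i hi
      exact (Finset.mem_filter.1 hi).2.2
    · intro i hi
      have := (Finset.mem_filter.1 hi).1
      rw [hP] at this
      exact (Finset.mem_filter.1 this).1
    · intro i hi
      obtain ⟨hiP, hic, hid⟩ := Finset.mem_filter.1 hi
      rw [hP] at hiP
      obtain ⟨hiS, hv1, hv2⟩ := Finset.mem_filter.1 hiP
      rw [Finset.mem_filter, hP, Finset.mem_filter]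
      refine ⟨⟨(hM i hiS).1, ?_, ?_⟩, ?_, ?_⟩
      · rw [hvs i hiS]; exact hv1
      · rw [hvs i hiS]; exact hv2
      · rw [hvv i c hv1]; exact hic
      · rw [hvv i d hv2]; exact hid
  have hsub : P ⊆ (P.filter (fun i => X i c = 1 ∧ X i d = 1) ∪
      P.filter (fun i => X i c = 1 ∧ X i d = -1)) ∪
      (P.filter (fun i => X i c = -1 ∧ X i d = 1) ∪
      P.filter (fun i => X i c = -1 ∧ X i d = -1)) := by
    intro i hi
    simp only [Finset.mem_union, Finset.mem_filter]
    rcases hX.1 i c with h1 | h1 <;> rcases hX.1 i d with h2 | h2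
    · exact Or.inl (Or.inl ⟨hi, h1, h2⟩)
    · exact Or.inl (Or.inr ⟨hi, h1, h2⟩)
    · exact Or.inr (Or.inl ⟨hi, h1, h2⟩)
    · exact Or.inr (Or.inr ⟨hi, h1, h2⟩)
  have hcard := (Finset.card_le_card hsub).trans ((Finset.card_union_le _ _).trans
    (add_le_add (Finset.card_union_le _ _) (Finset.card_union_le _ _)))
  have hcard' : (P.card : ℝ) ≤ ((P.filter (fun i => X i c = 1 ∧ X i d = 1)).card +
      (P.filter (fun i => X i c = 1 ∧ X i d = -1)).card) +
      ((P.filter (fun i => X i c = -1 ∧ X i d = 1)).card +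
      (P.filter (fun i => X i c = -1 ∧ X i d = -1)).card) := by exact_mod_cast hcard
  have k1 := key 1 1 (by norm_num) (by norm_num)
  have k2 := key 1 (-1) (by norm_num) (by norm_num)
  have k3 := key (-1) 1 (by norm_num) (by norm_num)
  have k4 := key (-1) (-1) (by norm_num) (by norm_num)
  linarith
end ConfC
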