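import Pool.Agent.Helper468.Conf.Defs

set_option autoImplicit false
open Finset

namespace ConfC



theorem f8b_aux {ι : Type} {N : ℕ} (X : ι → Fin N → ℝ)
    (hX : ∀ i c, X i c = 1 ∨ X i c = -1) (s : ι → ι) (i : ι) (c : Fin N) :
    |vv X s i c| = (1 + X i c * X (s i) c) / 2 := by
  unfold vv
  rcases hX i c with h | h <;> rcases hX (s i) c with h' | h' <;> rw [h, h'] <;> norm_num

theorem f8b_agr {ι : Type} {N : ℕ} (X : ι → Fin N → ℝ)
    (hX : ∀ i c, X i c = 1 ∨ X i c = -1) (s : ι → ι) (i : ι) :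
    agr (X i) (X (s i)) = ∑ c, |vv X s i c| := by
  simp_rw [f8b_aux X hX s i]
  unfold agr ip
  rw [← Finset.sum_div, Finset.sum_add_distrib]
  simp

theorem f8b_le_one {ι : Type} {N : ℕ} (X : ι → Fin N → ℝ)
    (hX : ∀ i c, X i c = 1 ∨ X i c = -1) (s : ι → ι) (i : ι) (c : Fin N) :
    |vv X s i c| ≤ 1 := by
  unfold vv
  rcases hX i c with h | h <;> rcases hX (s i) c with h' | h' <;> rw [h, h'] <;> norm_num

theorem f8b_T {ι : Type} [DecidableEq ι] {N : ℕ} (X : ι → Fin N → ℝ)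
    (hX : ∀ i c, X i c = 1 ∨ X i c = -1) (S : Finset ι) (s : ι → ι) (c d : Fin N) :
    ∑ i ∈ S, |vv X s i c| * |vv X s i d| ≤
      ((S.filter (fun i => vv X s i c ≠ 0 ∧ vv X s i d ≠ 0)).card : ℝ) := by
  rw [Finset.card_filter]
  push_cast
  refine Finset.sum_le_sum fun i _ => ?_
  split_ifs with h
  · have h1 := f8b_le_one X hX s i c
    have h2 := f8b_le_one X hX s i d
    have h3 := abs_nonneg (vv X s i c)
    have h4 := abs_nonneg (vv X s i d)
    nlinarith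
  · by_cases h1 : vv X s i c = 0
    · rw [h1]; simp
    · by_cases h2 : vv X s i d = 0
      · rw [h2]; simp
      · exact absurd ⟨h1, h2⟩ h

theorem f8b {ι : Type} [DecidableEq ι] {N : ℕ} (X : ι → Fin N → ℝ)
    (hX : Code X) (S : Finset ι) (s : ι → ι) (t : ℝ) (ht : 0 ≤ t) (hM : Mat X S s t)
    (h8a : ∀ c d : Fin N, c ≠ d →
      ((S.filter (fun i => vv X s i c ≠ 0 ∧ vv X s i d ≠ 0)).card : ℝ) ≤ 8 * t) :
    ∑ c, ∑ d ∈ univ.erase c, (∑ i ∈ S, vv X s i c * vv X s i d) ^ 2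
      ≤ 8 * t ^ 2 * ∑ i ∈ S, agr (X i) (X (s i)) := by
  have hX1 := hX.1
  have step1 : ∀ c : Fin N, ∀ d ∈ univ.erase c, (∑ i ∈ S, vv X s i c * vv X s i d) ^ 2 ≤
      8 * t * ∑ i ∈ S, |vv X s i c| * |vv X s i d| := by
    intro c d hd
    have hcd : c ≠ d := (Finset.ne_of_mem_erase hd).symm
    have hT := (f8b_T X hX1 S s c d).trans (h8a c d hcd)
    have hT0 : 0 ≤ ∑ i ∈ S, |vv X s i c| * |vv X s i d| :=
      Finset.sum_nonneg fun i _ => mul_nonneg (abs_nonneg _) (abs_nonneg _)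
    have ha : |∑ i ∈ S, vv X s i c * vv X s i d| ≤ ∑ i ∈ S, |vv X s i c| * |vv X s i d| := by
      refine (Finset.abs_sum_le_sum_abs _ _).trans (le_of_eq ?_)
      exact Finset.sum_congr rfl fun i _ => abs_mul _ _
    rw [← sq_abs]
    have hb := abs_nonneg (∑ i ∈ S, vv X s i c * vv X s i d)
    nlinarith
  have step2 : ∑ c, ∑ d ∈ univ.erase c, (∑ i ∈ S, vv X s i c * vv X s i d) ^ 2 ≤
      ∑ c : Fin N, ∑ d : Fin N, 8 * t * ∑ i ∈ S, |vv X s i c| * |vv X s i d| := by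
    refine Finset.sum_le_sum fun c _ => ?_
    refine (Finset.sum_le_sum (step1 c)).trans ?_
    refine Finset.sum_le_sum_of_subset_of_nonneg (Finset.subset_univ _) fun d _ _ => ?_
    have hT0 : 0 ≤ ∑ i ∈ S, |vv X s i c| * |vv X s i d| :=
      Finset.sum_nonneg fun i _ => mul_nonneg (abs_nonneg _) (abs_nonneg _)
    positivity
  have step3 : ∑ c : Fin N, ∑ d : Fin N, 8 * t * ∑ i ∈ S, |vv X s i c| * |vv X s i d| =
      8 * t * ∑ i ∈ S, (agr (X i) (X (s i))) ^ 2 := by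
    simp_rw [← Finset.mul_sum]
    congr 1
    have e1 : ∀ c : Fin N, ∑ d : Fin N, ∑ i ∈ S, |vv X s i c| * |vv X s i d| =
        ∑ i ∈ S, ∑ d : Fin N, |vv X s i c| * |vv X s i d| := fun c => Finset.sum_comm
    simp_rw [e1]
    rw [Finset.sum_comm]
    refine Finset.sum_congr rfl fun i _ => ?_
    rw [f8b_agr X hX1 s i, sq, Finset.sum_mul_sum]
  have step4 : ∑ i ∈ S, (agr (X i) (X (s i))) ^ 2 ≤ t * ∑ i ∈ S, agr (X i) (X (s i)) := by
    rw [Finset.mul_sum]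
    refine Finset.sum_le_sum fun i hi => ?_
    have h1 := (hM i hi).2.2.2
    have h2 : 0 ≤ agr (X i) (X (s i)) := by
      rw [f8b_agr X hX1 s i]
      exact Finset.sum_nonneg fun c _ => abs_nonneg _
    nlinarith
  refine step2.trans ?_
  rw [step3]
  calc 8 * t * ∑ i ∈ S, (agr (X i) (X (s i))) ^ 2
      ≤ 8 * t * (t * ∑ i ∈ S, agr (X i) (X (s i))) :=
        mul_le_mul_of_nonneg_left step4 (by positivity)
    _ = 8 * t ^ 2 * ∑ i ∈ S, agr (X i) (X (s i)) := by ring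

end ConfC
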