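import Pool.Agent.Helper468.Conf.Defs

set_option autoImplicit false
open Finset

namespace ConfC



theorem f9a_vv_self {ι : Type} {N : ℕ} (X : ι → Fin N → ℝ)
    (hX : ∀ i c, X i c = 1 ∨ X i c = -1) (s : ι → ι) (i : ι) :
    ip (vv X s i) (vv X s i) = agr (X i) (X (s i)) := by
  have h : ∀ c, vv X s i c * vv X s i c = (1 + X i c * X (s i) c) / 2 := by
    intro c
    unfold vv
    rcases hX i c with h1 | h1 <;> rcases hX (s i) c with h2 | h2 <;> rw [h1, h2] <;> norm_num
  unfold agr ip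
  rw [Finset.sum_congr rfl (fun c _ => h c), ← Finset.sum_div, Finset.sum_add_distrib]
  simp

theorem f9a_ip_sum {ι : Type} {N : ℕ} (S : Finset ι) (a : ι → ℝ) (v : ι → Fin N → ℝ) :
    ip (fun c => ∑ i ∈ S, a i * v i c) (fun c => ∑ i ∈ S, a i * v i c)
      = ∑ i ∈ S, ∑ j ∈ S, (a i * a j) * ip (v i) (v j) := by
  unfold ip
  simp_rw [Finset.sum_mul_sum, Finset.mul_sum]
  rw [Finset.sum_comm]
  apply Finset.sum_congr rfl
  intro i _
  rw [Finset.sum_comm]
  apply Finset.sum_congr rfl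
  intro j _
  apply Finset.sum_congr rfl
  intro c _
  ring

theorem f9a {ι : Type} [DecidableEq ι] {N : ℕ} (X : ι → Fin N → ℝ)
    (hX : Code X) (S : Finset ι) (s : ι → ι) (t : ℝ) (ht : 0 ≤ t) (hM : Mat X S s t)
    (hyy : ∀ i ∈ S, ∀ j ∈ S, j ≠ i → j ≠ s i →
      |ip (yv X S s i) (yv X S s j)| ≤ 1 - ip (vv X s i) (vv X s j)) :
    ip (fun c => ∑ i ∈ S, (1 + agr (X i) (X (s i))) * vv X s i c)
       (fun c => ∑ i ∈ S, (1 + agr (X i) (X (s i))) * vv X s i c)
      ≤ ((S.card : ℝ) + ∑ i ∈ S, agr (X i) (X (s i))) ^ 2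
        + 2 * (1 + t) ^ 2 * ∑ i ∈ S, agr (X i) (X (s i)) := by
  have hself : ∀ i, ip (vv X s i) (vv X s i) = agr (X i) (X (s i)) := f9a_vv_self X hX.1 s
  have hT0 : ∀ i, 0 ≤ agr (X i) (X (s i)) := by
    intro i
    rw [← hself i]
    exact Finset.sum_nonneg (fun c _ => mul_self_nonneg _)
  have hTt : ∀ i ∈ S, agr (X i) (X (s i)) ≤ t := fun i hi => (hM i hi).2.2.2
  have hvs : ∀ i ∈ S, vv X s (s i) = vv X s i := by
    intro i hi
    funext c
    unfold vv
    rw [(hM i hi).2.2.1]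
    ring
  have hTs : ∀ i ∈ S, agr (X (s i)) (X (s (s i))) = agr (X i) (X (s i)) := by
    intro i hi
    rw [← hself i, ← hself (s i), hvs i hi]
  rw [f9a_ip_sum S (fun i => 1 + agr (X i) (X (s i))) (fun i => vv X s i)]
  set T : ι → ℝ := fun i => agr (X i) (X (s i)) with hTdef
  have hT0' : ∀ i, 0 ≤ T i := hT0
  have hTt' : ∀ i ∈ S, T i ≤ t := hTt
  have hTs' : ∀ i ∈ S, T (s i) = T i := hTs
  have hself' : ∀ i, ip (vv X s i) (vv X s i) = T i := hself
  have hrow : ∀ i ∈ S, ∑ j ∈ S, ((1 + T i) * (1 + T j)) * ip (vv X s i) (vv X s j)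
      ≤ (1 + T i) * ((S.card : ℝ) + ∑ j ∈ S, T j) + 2 * (1 + t) ^ 2 * T i := by
    intro i hi
    have hterm : ∀ j ∈ S, ((1 + T i) * (1 + T j)) * ip (vv X s i) (vv X s j)
        ≤ (1 + T i) * (1 + T j) + (if j = i then (1 + t) ^ 2 * T i else 0)
          + (if j = s i then (1 + t) ^ 2 * T i else 0) := by
      intro j hj
      have hi0 := hT0' i
      have hj0 := hT0' j
      have hit := hTt' i hi
      have hsq : (1 + T i) * (1 + T i) ≤ (1 + t) ^ 2 := by nlinarith
      have hnn : 0 ≤ (1 + t) ^ 2 * T i := by positivity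
      by_cases h1 : j = i
      · subst h1
        rw [hself', if_pos rfl]
        have h2 : (0 : ℝ) ≤ (if j = s j then (1 + t) ^ 2 * T j else 0) := by
          split_ifs
          · exact hnn
          · exact le_refl 0
        have h3 : (1 + T j) * (1 + T j) * T j ≤ (1 + t) ^ 2 * T j :=
          mul_le_mul_of_nonneg_right hsq hi0
        have h4 : 0 ≤ (1 + T j) * (1 + T j) := mul_self_nonneg _
        linarith
      · by_cases h2 : j = s i
        · subst h2
          rw [hvs i hi, hself', if_neg h1, if_pos rfl, hTs' i hi]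
          have h3 : (1 + T i) * (1 + T i) * T i ≤ (1 + t) ^ 2 * T i :=
            mul_le_mul_of_nonneg_right hsq hi0
          have h4 : 0 ≤ (1 + T i) * (1 + T i) := mul_self_nonneg _
          linarith
        · rw [if_neg h1, if_neg h2]
          have h3 := hyy i hi j hj h1 h2
          have h4 := abs_nonneg (ip (yv X S s i) (yv X S s j))
          have h5 : ip (vv X s i) (vv X s j) ≤ 1 := by linarith
          have h6 : 0 ≤ (1 + T i) * (1 + T j) := by positivity
          nlinarith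
    calc ∑ j ∈ S, ((1 + T i) * (1 + T j)) * ip (vv X s i) (vv X s j)
        ≤ ∑ j ∈ S, ((1 + T i) * (1 + T j) + (if j = i then (1 + t) ^ 2 * T i else 0)
          + (if j = s i then (1 + t) ^ 2 * T i else 0)) := Finset.sum_le_sum hterm
      _ = (1 + T i) * ((S.card : ℝ) + ∑ j ∈ S, T j) + 2 * (1 + t) ^ 2 * T i := by
        rw [Finset.sum_add_distrib, Finset.sum_add_distrib, Finset.sum_ite_eq' S i,
          Finset.sum_ite_eq' S (s i), if_pos hi, if_pos (hM i hi).1, ← Finset.mul_sum,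
          Finset.sum_add_distrib]
        simp only [Finset.sum_const, nsmul_eq_mul, mul_one]
        ring
  calc ∑ i ∈ S, ∑ j ∈ S, ((1 + T i) * (1 + T j)) * ip (vv X s i) (vv X s j)
      ≤ ∑ i ∈ S, ((1 + T i) * ((S.card : ℝ) + ∑ j ∈ S, T j) + 2 * (1 + t) ^ 2 * T i) :=
        Finset.sum_le_sum hrow
    _ = ((S.card : ℝ) + ∑ i ∈ S, T i) ^ 2 + 2 * (1 + t) ^ 2 * ∑ i ∈ S, T i := by
        rw [Finset.sum_add_distrib, ← Finset.sum_mul, ← Finset.mul_sum, Finset.sum_add_distrib]
        simp only [Finset.sum_const, nsmul_eq_mul, mul_one]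
        ring

end ConfC
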