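import Pool.Agent.Helper468.Conf.Defs

set_option autoImplicit false
open Finset

namespace ConfC



theorem f9b {ι : Type} [DecidableEq ι] {N : ℕ} (X : ι → Fin N → ℝ)
    (hX : Code X) (Z : Finset ι) :
    ip (fun c => ∑ j ∈ Z, X j c) (fun c => ∑ j ∈ Z, X j c)
      ≤ (Z.card : ℝ) * (N : ℝ) + (Z.card : ℝ) ^ 2 := by
  have h1 : ip (fun c => ∑ j ∈ Z, X j c) (fun c => ∑ j ∈ Z, X j c) =
      ∑ i ∈ Z, ∑ j ∈ Z, ip (X i) (X j) := by
    unfold ip
    have h2 : ∀ c, (∑ j ∈ Z, X j c) * (∑ j ∈ Z, X j c) = ∑ i ∈ Z, ∑ j ∈ Z, X i c * X j c :=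
      fun c => Finset.sum_mul_sum _ _ _ _
    simp only [h2]
    rw [Finset.sum_comm]
    refine Finset.sum_congr rfl fun i _ => ?_
    rw [Finset.sum_comm]
  have h3 : ∀ i ∈ Z, ∀ j ∈ Z, ip (X i) (X j) ≤ (if i = j then (N : ℝ) else 0) + 1 := by
    intro i _ j _
    split_ifs with h
    · subst h
      have h4 : ip (X i) (X i) = N := by
        unfold ip
        have h5 : ∀ c, X i c * X i c = 1 := by
          intro c
          rcases hX.1 i c with h | h <;> rw [h] <;> norm_num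
        simp [h5]
      rw [h4]
      linarith
    · rw [zero_add]
      exact hX.2 i j h
  rw [h1]
  calc ∑ i ∈ Z, ∑ j ∈ Z, ip (X i) (X j)
      ≤ ∑ i ∈ Z, ∑ j ∈ Z, ((if i = j then (N : ℝ) else 0) + 1) :=
        Finset.sum_le_sum fun i hi => Finset.sum_le_sum fun j hj => h3 i hi j hj
    _ = ∑ i ∈ Z, ((N : ℝ) + Z.card) := by
        refine Finset.sum_congr rfl fun i hi => ?_
        rw [Finset.sum_add_distrib, Finset.sum_ite_eq, if_pos hi]
        simp
    _ = (Z.card : ℝ) * (N : ℝ) + (Z.card : ℝ) ^ 2 := by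
        rw [Finset.sum_const, nsmul_eq_mul]
        ring

end ConfC
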