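import Pool.Agent.Helper468.Conf.Defs

set_option autoImplicit false
open Finset

namespace ConfC



theorem fin_num (k M p r th NN Xi sz SA W : ℝ) (hk : (10 : ℝ) ^ 20 ≤ k)
    (hM : M = 8 * k + 5) (hr0 : 0 ≤ r) (hp : p = M - r)
    (hr : 5 * 10 ^ 7 * r ≤ 740 * k) (hth0 : 0 ≤ th) (hth : th ≤ 740 * k)
    (hXi : Xi ≤ 8 * (5 * 10 ^ 7) ^ 2 * th)
    (hSA : k * SA ≤ r * k ^ 3 + r / 4 * (2 * k + r / 4) ^ 2)
    (hW : W ≤ (1 / 10 ^ 5) * ((p + th) ^ 2 + 2 * (1 + 5 * 10 ^ 7) ^ 2 * th)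
      + (r * (4 * k + 1) + r ^ 2) * 10 ^ 5)
    (hsz : sz ≤ r * (p + th) + W / 2)
    (hmain : (4 * k + 1) * M ^ 2 - 2 * M * th + NN ≤
      (2 * p * (4 * k + 1) ^ 2 - 4 * (4 * k + 1) * th + p ^ 2 - 2 * p + 4 * th + (NN + Xi))
      + 2 * sz + (r * (4 * k + 1) ^ 2 + r ^ 2 + 16 * SA)) : False := by
  subst hp
  subst hM
  have hk1 : (10 : ℝ) ^ 20 = 100000000000000000000 := by norm_num
  rw [hk1] at hk
  have hk0 : 0 < k := by linarith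
  have hr' : r ≤ (148 / 10 ^ 7) * k := by
    have : (148 / 10 ^ 7 : ℝ) * k = 740 * k / (5 * 10 ^ 7) := by ring
    rw [this, le_div_iff₀ (by norm_num)]
    linarith
  have hrk : r ≤ k := by
    refine hr'.trans ?_
    have : (148 / 10 ^ 7 : ℝ) * k ≤ 1 * k := mul_le_mul_of_nonneg_right (by norm_num) hk0.le
    linarith
  have b1 : r * th ≤ (148 / 10 ^ 7 * k) * (740 * k) :=
    mul_le_mul hr' hth hth0 (by positivity)
  have b2 : Xi ≤ 8 * (5 * 10 ^ 7) ^ 2 * (740 * k) :=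
    hXi.trans (mul_le_mul_of_nonneg_left hth (by norm_num))
  have bk : 100000000000000000000 * k ≤ k * k := mul_le_mul_of_nonneg_right hk hk0.le
  have b3 : (8 * k + 5 - r) + th ≤ 749 * k := by linarith
  have b3' : 0 ≤ (8 * k + 5 - r) + th := by linarith
  have b4 : ((8 * k + 5 - r) + th) ^ 2 ≤ (749 * k) ^ 2 := pow_le_pow_left₀ b3' b3 2
  have b5 : r * (4 * k + 1) ≤ (148 / 10 ^ 7 * k) * (401 / 100 * k) :=
    mul_le_mul hr' (by linarith) (by linarith) (by positivity)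
  have b6 : r ^ 2 ≤ (148 / 10 ^ 7 * k) ^ 2 := pow_le_pow_left₀ hr0 hr' 2
  have b8 : r * k ≤ (148 / 10 ^ 7 * k) * k := mul_le_mul_of_nonneg_right hr' hk0.le
  have b7 : SA ≤ r * k ^ 2 + 9 / 4 * (r * k) := by
    have c1 : (2 * k + r / 4) ^ 2 ≤ (3 * k) ^ 2 :=
      pow_le_pow_left₀ (by linarith) (by linarith) 2
    have c2 : r / 4 * (2 * k + r / 4) ^ 2 ≤ r / 4 * (3 * k) ^ 2 :=
      mul_le_mul_of_nonneg_left c1 (by linarith)
    have c3 : k * SA ≤ k * (r * k ^ 2 + 9 / 4 * (r * k)) := by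
      calc k * SA ≤ r * k ^ 3 + r / 4 * (2 * k + r / 4) ^ 2 := hSA
        _ ≤ r * k ^ 3 + r / 4 * (3 * k) ^ 2 := by linarith
        _ = k * (r * k ^ 2 + 9 / 4 * (r * k)) := by ring
    exact le_of_mul_le_mul_left c3 hk0
  have b9 : W ≤ (1 / 10 ^ 5) * ((749 * k) ^ 2 + 2 * (1 + 5 * 10 ^ 7) ^ 2 * (740 * k))
      + ((148 / 10 ^ 7 * k) * (401 / 100 * k) + (148 / 10 ^ 7 * k) ^ 2) * 10 ^ 5 := by
    refine hW.trans ?_
    have d1 : 2 * (1 + 5 * 10 ^ 7) ^ 2 * th ≤ 2 * (1 + 5 * 10 ^ 7) ^ 2 * (740 * k) :=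
      mul_le_mul_of_nonneg_left hth (by norm_num)
    have d2 : (1 / 10 ^ 5) * ((8 * k + 5 - r + th) ^ 2 + 2 * (1 + 5 * 10 ^ 7) ^ 2 * th) ≤
        (1 / 10 ^ 5) * ((749 * k) ^ 2 + 2 * (1 + 5 * 10 ^ 7) ^ 2 * (740 * k)) :=
      mul_le_mul_of_nonneg_left (add_le_add b4 d1) (by norm_num)
    have d3 : (r * (4 * k + 1) + r ^ 2) * 10 ^ 5 ≤
        ((148 / 10 ^ 7 * k) * (401 / 100 * k) + (148 / 10 ^ 7 * k) ^ 2) * 10 ^ 5 :=
      mul_le_mul_of_nonneg_right (add_le_add b5 b6) (by norm_num)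
    exact add_le_add d2 d3
  have e1 : 4 * k * (8 * k + 5) + r * (8 * k - 1) ≤ (10 + 2 * r) * th + Xi + W
      + 16 * (SA - r * k ^ 2) := by
    nlinarith only [hmain, hsz]
  have e2 : 0 ≤ r * (8 * k - 1) := mul_nonneg hr0 (by linarith)
  have e3 : 4 * k * (8 * k + 5) ≤ 10 * (740 * k) + 2 * ((148 / 10 ^ 7 * k) * (740 * k)) +
      8 * (5 * 10 ^ 7) ^ 2 * (740 * k) +
      ((1 / 10 ^ 5) * ((749 * k) ^ 2 + 2 * (1 + 5 * 10 ^ 7) ^ 2 * (740 * k))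
      + ((148 / 10 ^ 7 * k) * (401 / 100 * k) + (148 / 10 ^ 7 * k) ^ 2) * 10 ^ 5) +
      16 * (9 / 4 * ((148 / 10 ^ 7 * k) * k)) := by
    linarith
  have e4 : 0 < k * k := by positivity
  ring_nf at e3 bk e4
  linarith

end ConfC
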