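import Pool.Agent.Helper468.Conf.Defs

set_option autoImplicit false
open Finset

namespace ConfC



theorem frob {ι : Type} [Fintype ι] {N : ℕ} (y : ι → Fin N → ℝ) :
    ∑ c, (∑ i, y i c ^ 2) ^ 2 ≤ ∑ i, ∑ j, ip (y i) (y j) ^ 2 := by
  have h1 : ∑ i, ∑ j, ip (y i) (y j) ^ 2 = ∑ c, ∑ d, (∑ i, y i c * y i d) ^ 2 := by
    have e1 : ∀ i j, ip (y i) (y j) ^ 2 = ∑ c, ∑ d, (y i c * y j c) * (y i d * y j d) := by
      intro i j
      unfold ip
      rw [pow_two, Finset.sum_mul_sum]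
    have e2 : ∀ c d, (∑ i, y i c * y i d) ^ 2 = ∑ i, ∑ j, (y i c * y i d) * (y j c * y j d) := by
      intro c d
      rw [pow_two, Finset.sum_mul_sum]
    simp only [e1, e2]
    calc ∑ i, ∑ j, ∑ c, ∑ d, (y i c * y j c) * (y i d * y j d)
        = ∑ i, ∑ c, ∑ j, ∑ d, (y i c * y j c) * (y i d * y j d) :=
          Finset.sum_congr rfl fun i _ => Finset.sum_comm
      _ = ∑ c, ∑ i, ∑ j, ∑ d, (y i c * y j c) * (y i d * y j d) := Finset.sum_comm
      _ = ∑ c, ∑ i, ∑ d, ∑ j, (y i c * y j c) * (y i d * y j d) :=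
          Finset.sum_congr rfl fun c _ => Finset.sum_congr rfl fun i _ => Finset.sum_comm
      _ = ∑ c, ∑ d, ∑ i, ∑ j, (y i c * y j c) * (y i d * y j d) :=
          Finset.sum_congr rfl fun c _ => Finset.sum_comm
      _ = ∑ c, ∑ d, ∑ i, ∑ j, (y i c * y i d) * (y j c * y j d) := by
          refine Finset.sum_congr rfl fun c _ => Finset.sum_congr rfl fun d _ =>
            Finset.sum_congr rfl fun i _ => Finset.sum_congr rfl fun j _ => ?_
          ring
  rw [h1]
  refine Finset.sum_le_sum fun c _ => ?_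
  have h2 : (∑ i, y i c ^ 2) ^ 2 = (∑ i, y i c * y i c) ^ 2 := by
    congr 1
    exact Finset.sum_congr rfl fun i _ => by ring
  rw [h2]
  exact Finset.single_le_sum (f := fun d => (∑ i, y i c * y i d) ^ 2)
    (fun d _ => sq_nonneg _) (Finset.mem_univ c)

end ConfC
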