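import Pool.Agent.Helper468.Conf.Defs

set_option autoImplicit false
open Finset

namespace ConfC



theorem ip_vv {ι : Type} {N : ℕ} (X : ι → Fin N → ℝ) (hX : ∀ i c, X i c = 1 ∨ X i c = -1)
    (s : ι → ι) (i : ι) :
    ip (vv X s i) (vv X s i) = agr (X i) (X (s i)) := by
  have hsq : ∀ j c, X j c * X j c = 1 := by
    intro j c
    rcases hX j c with h | h <;> rw [h] <;> norm_num
  unfold ip vv agr ip
  have h1 : ∀ c, (X i c + X (s i) c) / 2 * ((X i c + X (s i) c) / 2) =
      1 / 2 + (1 / 2) * (X i c * X (s i) c) := by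
    intro c
    have e1 := hsq i c
    have e2 := hsq (s i) c
    linear_combination (1 / 4) * e1 + (1 / 4) * e2
  rw [Finset.sum_congr rfl fun c _ => h1 c, Finset.sum_add_distrib, ← Finset.mul_sum]
  simp only [Finset.sum_const, Finset.card_univ, Fintype.card_fin, nsmul_eq_mul]
  ring

end ConfC
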