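import Pool.Agent.Helper468.Conf.Defs

set_option autoImplicit false
open Finset

namespace ConfC



theorem agr_comm_23187 {N : ℕ} (x y : Fin N → ℝ) : agr x y = agr y x := by
  unfold agr ip
  congr 2
  exact Finset.sum_congr rfl fun c _ => mul_comm _ _

theorem matching {ι : Type} [Fintype ι] [DecidableEq ι] {k : ℕ} (X : ι → Fin (4 * k + 1) → ℝ)
    (hX : Code X) (t B : ℝ) (ht : t < k) (m : ι → ℝ)
    (hm1 : ∀ i j, i ≠ j → m i ≤ agr (X i) (X j))
    (hm2 : ∀ i, ∃ j, j ≠ i ∧ agr (X i) (X j) = m i) (hm3 : ∀ i, 0 ≤ m i)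
    (hm4 : ∑ i, m i ≤ B)
    (htriple : ∀ i j l : ι, j ≠ l → 2 * (k : ℝ) ≤ agr (X i) (X j) + agr (X i) (X l)) :
    ∃ (S : Finset ι) (s : ι → ι), Mat X S s t ∧
      t * ((Fintype.card ι : ℝ) - (S.card : ℝ)) ≤ B ∧
      ∑ i ∈ S, agr (X i) (X (s i)) ≤ B := by
  classical
  choose s hs1 hs2 using hm2
  refine ⟨univ.filter (fun i => m i ≤ t), s, ?_, ?_, ?_⟩
  · intro i hi
    have hi' : m i ≤ t := (Finset.mem_filter.1 hi).2
    have h1 : agr (X (s i)) (X i) = m i := by rw [agr_comm_23187]; exact hs2 i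
    have h2 : m (s i) ≤ m i := by
      rw [← h1]
      exact hm1 (s i) i (hs1 i)
    refine ⟨Finset.mem_filter.2 ⟨Finset.mem_univ _, h2.trans hi'⟩, hs1 i, ?_, ?_⟩
    · by_contra hne
      have h3 := htriple (s i) (s (s i)) i hne
      rw [h1, hs2 (s i)] at h3
      linarith
    · rw [hs2 i]
      exact hi'
  · have h1 : ((Fintype.card ι : ℝ) - ((univ.filter (fun i => m i ≤ t)).card : ℝ)) =
        ((univ.filter (fun i => m i ≤ t))ᶜ.card : ℝ) := by
      have := Finset.card_add_card_compl (univ.filter (fun i => m i ≤ t))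
      have h2 : ((univ.filter (fun i => m i ≤ t)).card : ℝ) +
          ((univ.filter (fun i => m i ≤ t))ᶜ.card : ℝ) = (Fintype.card ι : ℝ) := by
        exact_mod_cast this
      linarith
    rw [h1, mul_comm, ← nsmul_eq_mul, ← Finset.sum_const]
    refine le_trans ?_ hm4
    calc ∑ _i ∈ (univ.filter (fun i => m i ≤ t))ᶜ, t
        ≤ ∑ i ∈ (univ.filter (fun i => m i ≤ t))ᶜ, m i := by
          apply Finset.sum_le_sum
          intro i hi
          rw [Finset.mem_compl, Finset.mem_filter] at hi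
          by_contra hlt
          exact hi ⟨Finset.mem_univ _, (not_le.1 hlt).le⟩
      _ ≤ ∑ i, m i := Finset.sum_le_univ_sum_of_nonneg hm3
  · calc ∑ i ∈ univ.filter (fun i => m i ≤ t), agr (X i) (X (s i))
        = ∑ i ∈ univ.filter (fun i => m i ≤ t), m i :=
          Finset.sum_congr rfl fun i _ => hs2 i
      _ ≤ ∑ i, m i := Finset.sum_le_univ_sum_of_nonneg hm3
      _ ≤ B := hm4

end ConfC

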