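import Pool.Agent.Helper468.Conf.Defs

set_option autoImplicit false
open Finset

namespace ConfC



theorem minagr_ip_lower {N : ℕ} (x y : Fin N → ℝ) (hx : ∀ c, x c = 1 ∨ x c = -1)
    (hy : ∀ c, y c = 1 ∨ y c = -1) : -(N : ℝ) ≤ ip x y := by
  unfold ip
  have h1 : ∑ _c : Fin N, (-1 : ℝ) ≤ ∑ c, x c * y c := by
    refine Finset.sum_le_sum fun c _ => ?_
    rcases hx c with h | h <;> rcases hy c with h' | h' <;> rw [h, h'] <;> norm_num
  rw [Finset.sum_const, Finset.card_univ, Fintype.card_fin, nsmul_eq_mul] at h1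
  linarith

theorem minagr {ι : Type} [Fintype ι] [DecidableEq ι] {k : ℕ} (X : ι → Fin (4 * k + 1) → ℝ)
    (hX : Code X) (hk : 5 ≤ k) (hM : Fintype.card ι = 8 * k + 5)
    (hrows : ∀ h : ι → ℝ, (∀ i j, Am X i j ≤ h i) → (∀ i, ∃ j, Am X i j = h i) →
      ∑ i, ((k : ℝ) ^ 2 - h i ^ 2) ≤ 360 * (k : ℝ) ^ 2) :
    ∃ m : ι → ℝ, (∀ i j, i ≠ j → m i ≤ agr (X i) (X j)) ∧
      (∀ i, ∃ j, j ≠ i ∧ agr (X i) (X j) = m i) ∧ (∀ i, 0 ≤ m i) ∧
      ∑ i, m i ≤ 740 * (k : ℝ) := by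
  classical
  have hk0 : (5 : ℝ) ≤ k := by exact_mod_cast hk
  have hcard : 2 ≤ Fintype.card ι := by omega
  have hne : ∀ i : ι, (Finset.univ.erase i).Nonempty := by
    intro i
    rw [← Finset.card_pos, Finset.card_erase_of_mem (Finset.mem_univ i), Finset.card_univ]
    omega
  have hmin : ∀ i : ι, ∃ j ∈ Finset.univ.erase i, ∀ j' ∈ Finset.univ.erase i,
      agr (X i) (X j) ≤ agr (X i) (X j') := fun i =>
    Finset.exists_min_image _ (fun j => agr (X i) (X j)) (hne i)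
  choose μ hμ hμ' using hmin
  set m : ι → ℝ := fun i => agr (X i) (X (μ i)) with hm
  have hmle : ∀ i j, i ≠ j → m i ≤ agr (X i) (X j) := fun i j hij =>
    hμ' i j (Finset.mem_erase.2 ⟨hij.symm, Finset.mem_univ j⟩)
  have hμne : ∀ i, μ i ≠ i := fun i => (Finset.mem_erase.1 (hμ i)).1
  have hm0 : ∀ i, 0 ≤ m i := by
    intro i
    have h1 := minagr_ip_lower (X i) (X (μ i)) (hX.1 i) (hX.1 _)
    rw [hm]
    show 0 ≤ (((4 * k + 1 : ℕ) : ℝ) + ip (X i) (X (μ i))) / 2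
    linarith
  have hm1 : ∀ i, m i ≤ 2 * k + 1 := by
    intro i
    have h1 := hX.2 i (μ i) (hμne i).symm
    rw [hm]
    show (((4 * k + 1 : ℕ) : ℝ) + ip (X i) (X (μ i))) / 2 ≤ 2 * k + 1
    push_cast
    linarith
  have hAm : ∀ i j, i ≠ j → Am X i j = k + 1 / 2 - agr (X i) (X j) / 2 := by
    intro i j hij
    unfold Am agr
    rw [Matrix.of_apply, if_neg hij]
    push_cast
    ring
  refine ⟨m, hmle, fun i => ⟨μ i, hμne i, rfl⟩, hm0, ?_⟩
  have h1 := hrows (fun i => k + 1 / 2 - m i / 2) ?_ ?_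
  · have h2 : ∀ i, (k : ℝ) / 2 * m i - (k + 1 / 4) ≤ (k : ℝ) ^ 2 - (k + 1 / 2 - m i / 2) ^ 2 := by
      intro i
      have h3 : 0 ≤ m i / 2 * (k + 1 - m i / 2) := by
        apply mul_nonneg
        · linarith [hm0 i]
        · linarith [hm1 i]
      nlinarith
    have h3 : ∑ i, ((k : ℝ) / 2 * m i - (k + 1 / 4)) ≤ 360 * (k : ℝ) ^ 2 :=
      (Finset.sum_le_sum fun i _ => h2 i).trans h1
    rw [Finset.sum_sub_distrib, ← Finset.mul_sum, Finset.sum_const, Finset.card_univ, hM,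
      nsmul_eq_mul] at h3
    push_cast at h3
    have h4 : (k : ℝ) / 2 * ∑ i, m i ≤ (k : ℝ) / 2 * (740 * k) := by nlinarith
    exact le_of_mul_le_mul_left h4 (by positivity)
  · intro i j
    by_cases hij : i = j
    · subst hij
      unfold Am
      rw [Matrix.of_apply, if_pos rfl]
      have := hm1 i
      linarith
    · rw [hAm i j hij]
      have := hmle i j hij
      linarith
  · intro i
    refine ⟨μ i, ?_⟩
    rw [hAm i (μ i) (hμne i).symm]

end ConfC
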