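import Pool.Agent.Helper468.Conf.Defs

set_option autoImplicit false
open Finset

namespace ConfC



/-- restriction of a family to a subset of indices -/
theorem sub_code {ι : Type} [DecidableEq ι] {N : ℕ} (X : ι → Fin N → ℝ) (hX : Code X)
    (Z : Finset ι) :
    Code (fun i : {i // i ∈ Z} => X i.1) ∧ Fintype.card {i // i ∈ Z} = Z.card ∧
    ∑ i : {i // i ∈ Z}, ∑ j : {i // i ∈ Z}, Am (fun i : {i // i ∈ Z} => X i.1) i j ^ 2
      = ∑ i ∈ Z, ∑ j ∈ Z, Am X i j ^ 2 := by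
  refine ⟨⟨fun i c => hX.1 i.1 c, fun i j hij => hX.2 i.1 j.1 (fun h => hij (Subtype.ext h))⟩,
    Fintype.card_coe Z, ?_⟩
  rw [← Finset.sum_coe_sort Z (fun i => ∑ j ∈ Z, Am X i j ^ 2)]
  refine Finset.sum_congr rfl fun i _ => ?_
  rw [← Finset.sum_coe_sort Z (fun j => Am X i j ^ 2)]
  refine Finset.sum_congr rfl fun j _ => ?_
  congr 1
  unfold Am
  simp only [Matrix.of_apply, Subtype.ext_iff]

end ConfC
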