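import Pool.Agent.Helper468.Conf.Defs

set_option autoImplicit false
open Finset

namespace ConfC



theorem triple {ι : Type} {k : ℕ} (X : ι → Fin (4 * k + 1) → ℝ) (hX : Code X)
    (i j l : ι) (hjl : j ≠ l) :
    2 * (k : ℝ) ≤ agr (X i) (X j) + agr (X i) (X l) := by
  have h1 : -(4 * (k : ℝ) + 1) ≤ ip (X i) (X j) + ip (X i) (X l) + ip (X j) (X l) := by
    unfold ip
    rw [← Finset.sum_add_distrib, ← Finset.sum_add_distrib]
    have h2 : ∑ c : Fin (4 * k + 1), (-1 : ℝ) ≤
        ∑ c, (X i c * X j c + X i c * X l c + X j c * X l c) := by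
      refine Finset.sum_le_sum fun c _ => ?_
      rcases hX.1 i c with h | h <;> rcases hX.1 j c with h' | h' <;>
        rcases hX.1 l c with h'' | h'' <;> rw [h, h', h''] <;> norm_num
    refine le_trans (le_of_eq ?_) h2
    rw [Finset.sum_const, Finset.card_univ, Fintype.card_fin, nsmul_eq_mul]
    push_cast
    ring
  have h3 := hX.2 j l hjl
  unfold agr
  push_cast
  linarith

end ConfC
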