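import Pool.Agent.Helper468.Conf.Defs

set_option autoImplicit false
open Finset

namespace ConfC



theorem vv_vals {ι : Type} {N : ℕ} (X : ι → Fin N → ℝ) (hX : ∀ i c, X i c = 1 ∨ X i c = -1)
    (s : ι → ι) (i : ι) (c : Fin N) :
    (vv X s i c = 0 ∨ vv X s i c = 1 ∨ vv X s i c = -1) ∧
    ((X i c - X (s i) c) / 2) ^ 2 + vv X s i c ^ 2 = 1 ∧ |vv X s i c| = vv X s i c ^ 2 := by
  unfold vv
  rcases hX i c with h1 | h1 <;> rcases hX (s i) c with h2 | h2 <;> rw [h1, h2] <;> norm_num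

end ConfC
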