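import Pool.Agent.Helper468.Conf.Defs

set_option autoImplicit false
open Finset

namespace ConfC



theorem young {N : ℕ} (x y : Fin N → ℝ) (l : ℝ) (hl : 0 < l) :
    -(2 * ip x y) ≤ l * ip x x + ip y y / l := by
  have h : 0 ≤ ∑ c, (l * x c + y c) ^ 2 / l :=
    Finset.sum_nonneg (fun c _ => by positivity)
  have e : ∑ c, (l * x c + y c) ^ 2 / l = l * ip x x + ip y y / l + 2 * ip x y := by
    unfold ip
    rw [Finset.mul_sum, Finset.sum_div, Finset.mul_sum, ← Finset.sum_add_distrib,
      ← Finset.sum_add_distrib]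
    refine Finset.sum_congr rfl (fun c _ => ?_)
    field_simp
    ring
  linarith

end ConfC
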