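import Pool.Agent.Helper468.Conf.Defs

set_option autoImplicit false
open Finset

namespace ConfC



theorem ysum {ι : Type} [Fintype ι] [DecidableEq ι] {N : ℕ} (X : ι → Fin N → ℝ)
    (S : Finset ι) (s : ι → ι) :
    ∑ i, ∑ j, ip (yv X S s i) (yv X S s j) ^ 2
      = ∑ i ∈ S, ∑ j ∈ S, ip (yv X S s i) (yv X S s j) ^ 2
        + 2 * ∑ i ∈ S, ∑ j ∈ univ \ S, ip (yv X S s i) (X j) ^ 2
        + ∑ i ∈ univ \ S, ∑ j ∈ univ \ S, ip (X i) (X j) ^ 2 := by
  have hsymm : ∀ x y : Fin N → ℝ, ip x y = ip y x := by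
    intro x y
    unfold ip
    exact Finset.sum_congr rfl (fun c _ => mul_comm _ _)
  have hy : ∀ i ∈ univ \ S, yv X S s i = X i := by
    intro i hi
    have : i ∉ S := (Finset.mem_sdiff.1 hi).2
    funext c
    unfold yv
    rw [if_neg this]
  have hsplit : ∀ f : ι → ℝ, ∑ i, f i = ∑ i ∈ S, f i + ∑ i ∈ univ \ S, f i := by
    intro f
    rw [add_comm, Finset.sum_sdiff (Finset.subset_univ S)]
  rw [hsplit]
  have h1 : ∀ i, ∑ j, ip (yv X S s i) (yv X S s j) ^ 2
      = ∑ j ∈ S, ip (yv X S s i) (yv X S s j) ^ 2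
        + ∑ j ∈ univ \ S, ip (yv X S s i) (X j) ^ 2 := by
    intro i
    rw [hsplit]
    congr 1
    exact Finset.sum_congr rfl (fun j hj => by rw [hy j hj])
  rw [Finset.sum_congr rfl (fun i _ => h1 i), Finset.sum_add_distrib]
  have h2 : ∑ i ∈ univ \ S, ∑ j, ip (yv X S s i) (yv X S s j) ^ 2
      = ∑ i ∈ S, ∑ j ∈ univ \ S, ip (yv X S s i) (X j) ^ 2
        + ∑ i ∈ univ \ S, ∑ j ∈ univ \ S, ip (X i) (X j) ^ 2 := by
    rw [Finset.sum_congr rfl (fun i _ => h1 i), Finset.sum_add_distrib]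
    congr 1
    · rw [Finset.sum_comm]
      apply Finset.sum_congr rfl
      intro j _
      apply Finset.sum_congr rfl
      intro i hi
      rw [hy i hi, hsymm]
    · apply Finset.sum_congr rfl
      intro i hi
      rw [hy i hi]
  rw [h2]
  ring

end ConfC
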