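import Pool.Agent.Helper468.Conf.Defs

set_option autoImplicit false
open Finset

namespace ConfC



theorem yy_abs {ι : Type} [DecidableEq ι] {N : ℕ} (X : ι → Fin N → ℝ)
    (hX : Code X) (S : Finset ι) (s : ι → ι) (t : ℝ) (hM : Mat X S s t)
    (i j : ι) (hi : i ∈ S) (hj : j ∈ S) (h1 : j ≠ i) (h2 : j ≠ s i) :
    |ip (yv X S s i) (yv X S s j)| ≤ 1 - ip (vv X s i) (vv X s j) := by
  obtain ⟨hsi, hsine, hssi, -⟩ := hM i hi
  obtain ⟨hsj, hsjne, hssj, -⟩ := hM j hj
  have n1 : i ≠ j := h1.symm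
  have n2 : s i ≠ s j := by
    intro h
    apply n1
    rw [← hssi, ← hssj, h]
  have n3 : i ≠ s j := by
    intro h
    apply h2
    rw [h, hssj]
  have n4 : s i ≠ j := h2.symm
  have i1 := hX.2 i j n1
  have i2 := hX.2 (s i) (s j) n2
  have i3 := hX.2 i (s j) n3
  have i4 := hX.2 (s i) j n4
  have e1 : ip (yv X S s i) (yv X S s j) = (ip (X i) (X j) - ip (X i) (X (s j))
      - ip (X (s i)) (X j) + ip (X (s i)) (X (s j))) / 4 := by
    unfold ip yv
    simp only [if_pos hi, if_pos hj]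
    rw [← sum_sub_distrib, ← sum_sub_distrib, ← sum_add_distrib, sum_div]
    exact sum_congr rfl fun c _ => by ring
  have e2 : ip (vv X s i) (vv X s j) = (ip (X i) (X j) + ip (X i) (X (s j))
      + ip (X (s i)) (X j) + ip (X (s i)) (X (s j))) / 4 := by
    unfold ip vv
    rw [← sum_add_distrib, ← sum_add_distrib, ← sum_add_distrib, sum_div]
    exact sum_congr rfl fun c _ => by ring
  rw [e1, e2, abs_le]
  constructor <;> linarith

end ConfC
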