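import Pool.Agent.Helper468.Conf.E
import Pool.Agent.Helper468.Conf.P_triple
import Pool.Agent.Helper468.Conf.P_minagr
import Pool.Agent.Helper468.Conf.P_matching
import Pool.Agent.Helper468.Conf.P_vv_vals
import Pool.Agent.Helper468.Conf.P_ip_vv
import Pool.Agent.Helper468.Conf.P_frob
import Pool.Agent.Helper468.Conf.P_f1b
import Pool.Agent.Helper468.Conf.P_yy_abs
import Pool.Agent.Helper468.Conf.P_f3
import Pool.Agent.Helper468.Conf.P_f4
import Pool.Agent.Helper468.Conf.P_f5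
import Pool.Agent.Helper468.Conf.P_f6
import Pool.Agent.Helper468.Conf.P_f8a
import Pool.Agent.Helper468.Conf.P_f8b
import Pool.Agent.Helper468.Conf.P_f9a
import Pool.Agent.Helper468.Conf.P_f9b
import Pool.Agent.Helper468.Conf.P_young
import Pool.Agent.Helper468.Conf.P_ysum
import Pool.Agent.Helper468.Conf.P_fin_num
import Pool.Agent.Helper468.Conf.P_sub_code

set_option autoImplicit false
open Finset

namespace ConfC

theorem main_upper {ι : Type} [Fintype ι] [DecidableEq ι] (k : ℕ) (hk : 10 ^ 20 ≤ k)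
    (X : ι → Fin (4 * k + 1) → ℝ) (hX : Code X) (hM : Fintype.card ι = 8 * k + 5) : False := by
  have hk5 : 5 ≤ k := le_trans (by norm_num) hk
  have hkR : (10 : ℝ) ^ 20 ≤ (k : ℝ) := by exact_mod_cast hk
  have hkpos : (0 : ℝ) < k := lt_of_lt_of_le (by positivity) hkR
  obtain ⟨hq1, hq2⟩ := s1b k hk5 X hX hM
  obtain ⟨hs, h0, hnn, ht⟩ := am_nonneg X hX
  have hrows : ∀ h : ι → ℝ, (∀ i j, Am X i j ≤ h i) → (∀ i, ∃ j, Am X i j = h i) →
      ∑ i, ((k : ℝ) ^ 2 - h i ^ 2) ≤ 360 * (k : ℝ) ^ 2 := by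
    intro h hh ha
    have := rows (Am X) hs hnn (k : ℝ) 240 hkpos hq1 hq2 h hh ha
    linarith
  obtain ⟨m, hm1, hm2, hm3, hm4⟩ := minagr X hX hk5 hM hrows
  obtain ⟨S, s, hMat, hS1, hS2⟩ := matching X hX (5 * 10 ^ 7) (740 * k) (by nlinarith) m hm1 hm2 hm3
    hm4 (triple X hX)
  set th : ℝ := ∑ i ∈ S, agr (X i) (X (s i)) with hth
  have hyy : ∀ i ∈ S, ∀ j ∈ S, j ≠ i → j ≠ s i →
      |ip (yv X S s i) (yv X S s j)| ≤ 1 - ip (vv X s i) (vv X s j) :=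
    fun i hi j hj h1 h2 => yy_abs X hX S s _ hMat i j hi hj h1 h2
  have ht0 : (0 : ℝ) ≤ 5 * 10 ^ 7 := by norm_num
  have hth0 : 0 ≤ th := by
    refine Finset.sum_nonneg fun i _ => ?_
    rw [← ip_vv X hX.1 s i]
    exact Finset.sum_nonneg fun c _ => mul_self_nonneg _
  -- the pieces
  have F1 := frob (yv X S s)
  have F1b := f1b X hX.1 S s
  have F3 := f3 X hX S s _ hMat hyy
  have F4 := f4 S (vv X s)
  have F5 := f5 X hX S s _ hMat
  have F6 := f6 X hX (univ \ S)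
  have F8 := f8b X hX S s _ ht0 hMat (f8a X hX S s _ ht0 hMat)
  have F9a := f9a X hX S s _ ht0 hMat hyy
  have F9b := f9b X hX (univ \ S)
  have F9 := young (fun c => ∑ i ∈ S, (1 + agr (X i) (X (s i))) * vv X s i c)
             (fun c => ∑ j ∈ univ \ S, X j c) (1 / 10 ^ 5) (by norm_num)
  have FY := ysum X S s
  obtain ⟨hZ1, hZ2, hZ3⟩ := sub_code X hX (univ \ S)
  have F7 := s1a k (by omega) _ hZ1
  rw [hZ2, hZ3] at F7
  -- cardinalities
  have hcard : ((univ \ S).card : ℝ) = (Fintype.card ι : ℝ) - (S.card : ℝ) := by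
    rw [Finset.card_univ_sdiff, Nat.cast_sub (Finset.card_le_univ S)]
  have hMR : (Fintype.card ι : ℝ) = 8 * (k : ℝ) + 5 := by rw [hM]; push_cast; ring
  have hr0 : (0 : ℝ) ≤ ((univ \ S).card : ℝ) := by positivity
  have hpS : (S.card : ℝ) = (Fintype.card ι : ℝ) - ((univ \ S).card : ℝ) := by rw [hcard]; ring
  rw [← hcard] at hS1
  have hNc : (((4 * k + 1 : ℕ)) : ℝ) = 4 * (k : ℝ) + 1 := by push_cast; ring
  rw [hNc] at F1b F3 F6 F9b
  refine fin_num (k : ℝ) (Fintype.card ι : ℝ) (S.card : ℝ) ((univ \ S).card : ℝ) th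
    (∑ c, (∑ i ∈ S, vv X s i c ^ 2) ^ 2)
    (∑ c, ∑ d ∈ univ.erase c, (∑ i ∈ S, vv X s i c * vv X s i d) ^ 2)
    (∑ i ∈ S, ∑ j ∈ univ \ S, ip (yv X S s i) (X j) ^ 2)
    (∑ i ∈ univ \ S, ∑ j ∈ univ \ S, Am X i j ^ 2)
    ((1 / 10 ^ 5) * ((S.card + th) ^ 2 + 2 * (1 + 5 * 10 ^ 7) ^ 2 * th)
      + (((univ \ S).card : ℝ) * (4 * k + 1) + ((univ \ S).card : ℝ) ^ 2) * 10 ^ 5)
    hkR hMR hr0 hpS hS1 hth0 hS2 F8 F7 le_rfl ?_ ?_
  · have e1 : ip (fun c => ∑ j ∈ univ \ S, X j c) (fun c => ∑ j ∈ univ \ S, X j c) / (1 / 10 ^ 5)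
        = ip (fun c => ∑ j ∈ univ \ S, X j c) (fun c => ∑ j ∈ univ \ S, X j c) * 10 ^ 5 := by
      field_simp
    rw [e1] at F9
    have e2 := mul_le_mul_of_nonneg_right F9b (show (0 : ℝ) ≤ 10 ^ 5 by norm_num)
    have e3 := mul_le_mul_of_nonneg_left F9a (show (0 : ℝ) ≤ 1 / 10 ^ 5 by norm_num)
    linarith
  · rw [F4] at F3
    linarith
end ConfC
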