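import Pool.Agent.Helper468.Conf.Defs

set_option autoImplicit false
open Finset

namespace ConfC



/-- Hamming distance of boolean words through the `±1` inner product. -/
theorem ham_int (m : ℕ) (x y : Fin m → Bool) :
    (m : ℤ) - 2 * (hammingDist x y : ℤ)
      = ∑ c, (if x c then (1 : ℤ) else -1) * (if y c then (1 : ℤ) else -1) := by
  have h1 : ∀ c, (if x c then (1 : ℤ) else -1) * (if y c then (1 : ℤ) else -1)
      = 1 - 2 * (if x c ≠ y c then (1 : ℤ) else 0) := by
    intro c
    cases x c <;> cases y c <;> simp
  simp only [h1]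
  rw [sum_sub_distrib, ← mul_sum, sum_const, card_univ, Fintype.card_fin, nsmul_eq_mul, mul_one]
  congr 2
  unfold hammingDist
  rw [card_filter]
  push_cast
  rfl

end ConfC
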