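import Pool.Agent.Helper468.Conf.Defs
import Pool.Agent.Helper468.Conf.P_ham_int

set_option autoImplicit false
open Finset

namespace ConfC



theorem core_ip (m : ℕ) (S : Matrix (Fin m) (Fin m) ℤ) (e e' : ℤ) (i j : Fin m) :
    ∑ c, (e * S i c + if c = i then 1 else 0) * (e' * S j c + if c = j then 1 else 0) =
      e * e' * (∑ c, S i c * S j c) + e * S i j + e' * S j i + if i = j then 1 else 0 := by
  have h : ∀ c, (e * S i c + if c = i then 1 else 0) * (e' * S j c + if c = j then 1 else 0) =
      e * e' * (S i c * S j c) + (if c = j then e * S i c else 0) +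
      (if c = i then e' * S j c else 0) + (if c = i then (if c = j then 1 else 0) else 0) := by
    intro c
    split_ifs <;> ring
  rw [Finset.sum_congr rfl (fun c _ => h c)]
  rw [Finset.sum_add_distrib, Finset.sum_add_distrib, Finset.sum_add_distrib, ← Finset.mul_sum,
    Finset.sum_ite_eq' Finset.univ j, Finset.sum_ite_eq' Finset.univ i,
    Finset.sum_ite_eq' Finset.univ i]
  simp only [Finset.mem_univ, if_true]

theorem core_ip1 (m : ℕ) (S : Matrix (Fin m) (Fin m) ℤ) (e e' : ℤ) (i : Fin m)
    (h3 : ∑ c, S i c = 0) :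
    ∑ c, (e * S i c + if c = i then 1 else 0) * e' = e' := by
  rw [← Finset.sum_mul, Finset.sum_add_distrib, ← Finset.mul_sum, h3,
    Finset.sum_ite_eq' Finset.univ i]
  simp

/-- the conference matrix code from its core. -/
theorem code_of_core (m : ℕ) (hm : 5 ≤ m) (hodd : m % 4 = 1) (S : Matrix (Fin m) (Fin m) ℤ)
    (hs : ∀ i j, S i j = S j i) (h0 : ∀ i, S i i = 0)
    (h1 : ∀ i j, i ≠ j → S i j = 1 ∨ S i j = -1) (h3 : ∀ i, ∑ c, S i c = 0)
    (h4 : ∀ i j, i ≠ j → ∑ c, S i c * S j c = -1) :
    ∃ code : Finset (Fin m → Bool),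
      (∀ x ∈ code, ∀ y ∈ code, x ≠ y → (m - 1) / 2 ≤ hammingDist x y) ∧
      code.card = 2 * (m + 1) := by
  classical
  obtain ⟨v, hv⟩ : ∃ v : ((Fin m × Bool) ⊕ Bool) → Fin m → ℤ, v =
      Sum.elim (fun p c => (if p.2 then 1 else -1) * S p.1 c + if c = p.1 then 1 else 0)
        (fun b _ => if b then 1 else -1) := ⟨_, rfl⟩
  have hpm : ∀ a c, v a c = 1 ∨ v a c = -1 := by
    intro a c
    rw [hv]
    rcases a with ⟨i, b⟩ | b
    · simp only [Sum.elim_inl]
      by_cases hci : c = i
      · subst hci
        left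
        rw [h0 c]; simp
      · rw [if_neg hci]
        have := h1 i c (Ne.symm hci)
        cases b <;> rcases this with h | h <;> rw [h] <;> simp
    · cases b <;> simp
  have hip : ∀ a a', a ≠ a' → ∑ c, v a c * v a' c ≤ 1 := by
    intro a a' haa
    rw [hv]
    rcases a with ⟨i, b⟩ | b <;> rcases a' with ⟨j, b'⟩ | b'
    · simp only [Sum.elim_inl]
      rw [core_ip]
      by_cases hij : i = j
      · subst hij
        have hbb : b ≠ b' := by
          intro h; apply haa; rw [h]
        rw [h0 i, if_pos rfl]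
        have hsq : 0 ≤ ∑ c, S i c * S i c := Finset.sum_nonneg fun c _ => mul_self_nonneg _
        cases b <;> cases b' <;> simp at hbb ⊢ <;> linarith
      · rw [if_neg hij, h4 i j hij, hs j i]
        rcases h1 i j hij with h | h <;> rw [h] <;> cases b <;> cases b' <;> norm_num
    · simp only [Sum.elim_inl, Sum.elim_inr]
      rw [core_ip1 _ _ _ _ _ (h3 i)]
      cases b' <;> norm_num
    · simp only [Sum.elim_inl, Sum.elim_inr]
      have hc : ∑ c, (if b = true then (1:ℤ) else -1) *
          ((if b' = true then (1:ℤ) else -1) * S j c + if c = j then 1 else 0) =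
          ∑ c, ((if b' = true then (1:ℤ) else -1) * S j c + if c = j then 1 else 0) *
            (if b = true then (1:ℤ) else -1) :=
        Finset.sum_congr rfl fun c _ => mul_comm _ _
      rw [hc, core_ip1 _ _ _ _ _ (h3 j)]
      cases b <;> norm_num
    · simp only [Sum.elim_inr]
      have hbb : b ≠ b' := by
        intro h; apply haa; rw [h]
      cases b <;> cases b' <;> simp at hbb ⊢
  obtain ⟨w, hw⟩ : ∃ w : ((Fin m × Bool) ⊕ Bool) → Fin m → Bool,
      w = fun a c => decide (v a c = 1) := ⟨_, rfl⟩
  have hwv : ∀ a c, (if w a c then (1 : ℤ) else -1) = v a c := by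
    intro a c
    rw [hw]
    rcases hpm a c with h | h
    · simp [h]
    · simp [h]
  have hdist : ∀ a a', a ≠ a' → (m : ℤ) - 1 ≤ 2 * (hammingDist (w a) (w a') : ℤ) := by
    intro a a' haa
    have h5 := ham_int m (w a) (w a')
    simp only [hwv] at h5
    have h6 := hip a a' haa
    linarith
  have hinj : Function.Injective w := by
    intro a a' haa
    by_contra hne
    have h5 := hdist a a' hne
    rw [haa, hammingDist_self] at h5
    push_cast at h5
    have : (5:ℤ) ≤ m := by exact_mod_cast hm
    linarith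
  refine ⟨Finset.univ.image w, ?_, ?_⟩
  · intro x hx y hy hxy
    obtain ⟨a, _, rfl⟩ := Finset.mem_image.1 hx
    obtain ⟨a', _, rfl⟩ := Finset.mem_image.1 hy
    have haa : a ≠ a' := fun h => hxy (by rw [h])
    have h5 := hdist a a' haa
    omega
  · rw [Finset.card_image_of_injective _ hinj, Finset.card_univ]
    simp only [Fintype.card_sum, Fintype.card_prod, Fintype.card_fin, Fintype.card_bool]
    ring

end ConfC
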