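import Pool.Agent.Helper468.Conf.P_conf_norm
import Pool.Agent.Helper468.Conf.P_code_of_core

set_option autoImplicit false
open Finset

namespace ConfC

theorem conf_code (n : ℕ) (hn : 6 ≤ n) (h4 : n % 4 = 2)
    (hC : ∃ C : Matrix (Fin n) (Fin n) ℤ,
        C.IsSymm ∧ (∀ i, C i i = 0) ∧
        (∀ i j, i ≠ j → C i j = 1 ∨ C i j = -1) ∧
        C * C.transpose = ((n : ℤ) - 1) • (1 : Matrix (Fin n) (Fin n) ℤ)) :
    ∃ code : Finset (Fin (n - 1) → Bool),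
          (∀ x ∈ code, ∀ y ∈ code, x ≠ y → (n - 2) / 2 ≤ hammingDist x y) ∧
          code.card = 2 * n := by
  obtain ⟨m, rfl⟩ : ∃ m, n = m + 1 := ⟨n - 1, by omega⟩
  obtain ⟨C, h1, h2, h3, h5⟩ := hC
  obtain ⟨S, s1, s2, s3, s4, s5⟩ := conf_norm m C h1 h2 h3 h5
  obtain ⟨code, c1, c2⟩ := code_of_core m (by omega) (by omega) S s1 s2 s3 s4 s5
  refine ⟨code, ?_, c2⟩
  intro x hx y hy hxy
  have := c1 x hx y hy hxy
  have e : m + 1 - 2 = m - 1 := by omega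
  rw [e]
  exact this

end ConfC
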