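import Pool.Agent.Helper468.Conf.Defs

set_option autoImplicit false
open Finset

namespace ConfC



/-- normal form of a symmetric conference matrix: the core. -/
theorem conf_norm (m : ℕ) (C : Matrix (Fin (m + 1)) (Fin (m + 1)) ℤ) (hs : C.IsSymm)
    (h0 : ∀ i, C i i = 0) (h1 : ∀ i j, i ≠ j → C i j = 1 ∨ C i j = -1)
    (h2 : C * C.transpose = (((m + 1 : ℕ) : ℤ) - 1) • (1 : Matrix (Fin (m + 1)) (Fin (m + 1)) ℤ)) :
    ∃ S : Matrix (Fin m) (Fin m) ℤ, (∀ i j, S i j = S j i) ∧ (∀ i, S i i = 0) ∧
      (∀ i j, i ≠ j → S i j = 1 ∨ S i j = -1) ∧ (∀ i, ∑ c, S i c = 0) ∧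
      (∀ i j, i ≠ j → ∑ c, S i c * S j c = -1) := by
  have hsy : ∀ i j, C i j = C j i := fun i j => (hs.apply i j).symm
  set d : Fin m → ℤ := fun i => C 0 i.succ with hd
  have hd1 : ∀ i, d i = 1 ∨ d i = -1 := fun i => h1 0 i.succ (Fin.succ_ne_zero i).symm
  have hdd : ∀ i, d i * d i = 1 := by
    intro i
    rcases hd1 i with h | h <;> rw [h] <;> norm_num
  have hrow : ∀ i j : Fin (m + 1), i ≠ j → ∑ c, C i c * C j c = 0 := by
    intro i j hij
    have h3 := congrFun (congrFun h2 i) j
    rw [Matrix.mul_apply, Matrix.smul_apply, Matrix.one_apply_ne hij, smul_zero] at h3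
    exact h3
  refine ⟨Matrix.of fun i j => d i * C i.succ j.succ * d j, ?_, ?_, ?_, ?_, ?_⟩
  · intro i j
    simp only [Matrix.of_apply]
    rw [hsy i.succ j.succ]
    ring
  · intro i
    simp only [Matrix.of_apply]
    rw [h0]
    ring
  · intro i j hij
    simp only [Matrix.of_apply]
    have h3 := h1 i.succ j.succ (fun e => hij (Fin.succ_injective m e))
    rcases hd1 i with a | a <;> rcases hd1 j with b | b <;> rcases h3 with c | c <;>
      rw [a, b, c] <;> norm_num
  · intro i
    simp only [Matrix.of_apply]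
    have h3 := hrow 0 i.succ (Fin.succ_ne_zero i).symm
    rw [Fin.sum_univ_succ, h0, zero_mul, zero_add] at h3
    have h4 : ∑ c, d i * C i.succ c.succ * d c = d i * ∑ c : Fin m, C 0 c.succ * C i.succ c.succ := by
      rw [Finset.mul_sum]
      refine Finset.sum_congr rfl fun c _ => ?_
      simp only [hd]
      ring
    rw [h4, h3, mul_zero]
  · intro i j hij
    simp only [Matrix.of_apply]
    have h3 := hrow i.succ j.succ (fun e => hij (Fin.succ_injective m e))
    rw [Fin.sum_univ_succ] at h3
    have h4 : ∑ c, d i * C i.succ c.succ * d c * (d j * C j.succ c.succ * d c)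
        = d i * d j * ∑ c : Fin m, C i.succ c.succ * C j.succ c.succ := by
      rw [Finset.mul_sum]
      refine Finset.sum_congr rfl fun c _ => ?_
      have := hdd c
      calc d i * C i.succ c.succ * d c * (d j * C j.succ c.succ * d c)
          = (d c * d c) * (d i * d j * (C i.succ c.succ * C j.succ c.succ)) := by ring
        _ = _ := by rw [this, one_mul]
    rw [h4]
    have h5 : ∑ c : Fin m, C i.succ c.succ * C j.succ c.succ = -(d i * d j) := by
      have e1 : C i.succ 0 = d i := hsy _ _
      have e2 : C j.succ 0 = d j := hsy _ _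
      rw [e1, e2] at h3
      linarith
    rw [h5]
    have hi := hdd i
    have hj := hdd j
    calc d i * d j * -(d i * d j) = -((d i * d i) * (d j * d j)) := by ring
      _ = -1 := by rw [hi, hj]; norm_num

end ConfC
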