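import Pool.Agent.Helper468.Conf.Defs

set_option autoImplicit false
open Finset

namespace ConfC



theorem f5_pt {ι : Type} [Fintype ι] [DecidableEq ι] {N : ℕ} (X : ι → Fin N → ℝ)
    (hX : Code X) (S : Finset ι) (s : ι → ι) (t : ℝ) (hM : Mat X S s t) (i j : ι) (hi : i ∈ S)
    (hj : j ∉ S) : ip (yv X S s i) (X j) ^ 2 ≤
      (1 + agr (X i) (X (s i))) * (1 - ip (vv X s i) (X j)) := by
  obtain ⟨hsi, -, -, -⟩ := hM i hi
  have hij : i ≠ j := by rintro rfl; exact hj hi
  have hsij : s i ≠ j := by rintro rfl; exact hj hsi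
  have h1 := hX.2 i j hij
  have h2 := hX.2 (s i) j hsij
  have e1 : ip (X i) (X j) = ip (vv X s i) (X j) + ip (yv X S s i) (X j) := by
    unfold ip
    rw [← Finset.sum_add_distrib]
    apply Finset.sum_congr rfl
    intro c _
    unfold vv yv
    rw [if_pos hi]
    ring
  have e2 : ip (X (s i)) (X j) = ip (vv X s i) (X j) - ip (yv X S s i) (X j) := by
    unfold ip
    rw [← Finset.sum_sub_distrib]
    apply Finset.sum_congr rfl
    intro c _
    unfold vv yv
    rw [if_pos hi]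
    ring
  have hag : agr (X i) (X (s i)) = ∑ c, (vv X s i c) ^ 2 := by
    unfold agr ip
    have : (N : ℝ) = ∑ c : Fin N, (1 : ℝ) := by simp
    rw [this, ← Finset.sum_add_distrib, Finset.sum_div]
    apply Finset.sum_congr rfl
    intro c _
    unfold vv
    rcases hX.1 i c with h | h <;> rcases hX.1 (s i) c with h' | h' <;> rw [h, h'] <;> norm_num
  have hlow : -agr (X i) (X (s i)) ≤ ip (vv X s i) (X j) := by
    rw [hag]
    unfold ip
    rw [← Finset.sum_neg_distrib]
    apply Finset.sum_le_sum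
    intro c _
    unfold vv
    rcases hX.1 i c with h | h <;> rcases hX.1 (s i) c with h' | h' <;>
      rcases hX.1 j c with h'' | h'' <;> rw [h, h', h''] <;> norm_num
  rw [e1] at h1
  rw [e2] at h2
  set D := 1 - ip (vv X s i) (X j) with hD
  set y := ip (yv X S s i) (X j) with hy
  have hD1 : y ≤ D := by linarith
  have hD2 : -D ≤ y := by linarith
  have hD0 : 0 ≤ D := by linarith
  have hD3 : D ≤ 1 + agr (X i) (X (s i)) := by linarith
  calc y ^ 2 ≤ D ^ 2 := sq_le_sq' hD2 hD1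
    _ = D * D := sq D
    _ ≤ (1 + agr (X i) (X (s i))) * D := mul_le_mul_of_nonneg_right hD3 hD0

theorem f5 {ι : Type} [Fintype ι] [DecidableEq ι] {N : ℕ} (X : ι → Fin N → ℝ)
    (hX : Code X) (S : Finset ι) (s : ι → ι) (t : ℝ) (hM : Mat X S s t) :
    ∑ i ∈ S, ∑ j ∈ univ \ S, ip (yv X S s i) (X j) ^ 2
      ≤ ((univ \ S).card : ℝ) * ((S.card : ℝ) + ∑ i ∈ S, agr (X i) (X (s i)))
        - ip (fun c => ∑ i ∈ S, (1 + agr (X i) (X (s i))) * vv X s i c)
             (fun c => ∑ j ∈ univ \ S, X j c) := by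
  have h1 : ∑ i ∈ S, ∑ j ∈ univ \ S, ip (yv X S s i) (X j) ^ 2 ≤
      ∑ i ∈ S, ∑ j ∈ univ \ S, (1 + agr (X i) (X (s i))) * (1 - ip (vv X s i) (X j)) := by
    apply Finset.sum_le_sum
    intro i hi
    apply Finset.sum_le_sum
    intro j hj
    exact f5_pt X hX S s t hM i j hi (Finset.mem_sdiff.1 hj).2
  refine h1.trans (le_of_eq ?_)
  have h2 : ip (fun c => ∑ i ∈ S, (1 + agr (X i) (X (s i))) * vv X s i c)
      (fun c => ∑ j ∈ univ \ S, X j c) =
      ∑ i ∈ S, ∑ j ∈ univ \ S, (1 + agr (X i) (X (s i))) * ip (vv X s i) (X j) := by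
    unfold ip
    simp only [Finset.sum_mul, Finset.mul_sum]
    rw [Finset.sum_comm (s := S) (t := univ \ S), Finset.sum_comm (s := univ) (t := univ \ S)]
    apply Finset.sum_congr rfl
    intro j _
    rw [Finset.sum_comm]
    apply Finset.sum_congr rfl
    intro i _
    apply Finset.sum_congr rfl
    intro c _
    ring
  rw [h2]
  have h3 : ∀ i ∈ S, ∑ j ∈ univ \ S, (1 + agr (X i) (X (s i))) * (1 - ip (vv X s i) (X j)) =
      ((univ \ S).card : ℝ) * (1 + agr (X i) (X (s i))) -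
        ∑ j ∈ univ \ S, (1 + agr (X i) (X (s i))) * ip (vv X s i) (X j) := by
    intro i _
    simp only [mul_sub, mul_one, Finset.sum_sub_distrib, Finset.sum_const, nsmul_eq_mul]
  rw [Finset.sum_congr rfl h3, Finset.sum_sub_distrib, ← Finset.mul_sum, Finset.sum_add_distrib]
  simp

end ConfC
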