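import Pool.Agent.Helper468.Conf.Defs
import Pool.Agent.Helper468.Conf.P_ham_int

set_option autoImplicit false
open Finset

namespace ConfC



/-- a boolean code with too many words gives a `±1` family of exactly `8k+5` words. -/
theorem reduce (k : ℕ) (code : Finset (Fin (4 * k + 1) → Bool))
    (hd : ∀ x ∈ code, ∀ y ∈ code, x ≠ y → 2 * k ≤ hammingDist x y)
    (hc : 8 * k + 5 ≤ code.card) :
    ∃ X : Fin (8 * k + 5) → Fin (4 * k + 1) → ℝ, Code X := by
  classical
  obtain ⟨T, hT, hcard⟩ := Finset.exists_subset_card_eq hc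
  let e : Fin (8 * k + 5) ≃ T := (T.equivFinOfCardEq hcard).symm
  refine ⟨fun i c => if (e i).1 c then (1:ℝ) else -1, fun i c => ?_, fun i j hij => ?_⟩
  · by_cases h : (e i).1 c = true
    · left; simp [h]
    · right; simp [h]
  · have h1 := ham_int (4 * k + 1) (e i).1 (e j).1
    have hne : (e i).1 ≠ (e j).1 := fun h => hij (e.injective (Subtype.ext h))
    have h2 := hd _ (hT (e i).2) _ (hT (e j).2) hne
    have h3 : ((∑ c, (if (e i).1 c then (1 : ℤ) else -1) * (if (e j).1 c then (1 : ℤ) else -1) : ℤ) : ℝ)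
        = ip (fun c => if (e i).1 c then (1:ℝ) else -1) (fun c => if (e j).1 c then (1:ℝ) else -1) := by
      unfold ip
      push_cast
      rfl
    rw [← h3]
    have h4 : (∑ c, (if (e i).1 c then (1 : ℤ) else -1) * (if (e j).1 c then (1 : ℤ) else -1) : ℤ)
        ≤ 1 := by
      rw [← h1]
      push_cast
      have h5 : (2 * k : ℤ) ≤ (hammingDist (e i).1 (e j).1 : ℤ) := by exact_mod_cast h2
      linarith
    exact_mod_cast h4

end ConfC
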