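import Pool.Agent.Helper468.Conf.Defs

set_option autoImplicit false
open Finset

namespace ConfC



theorem rows_aux_sq {ι : Type} [Fintype ι] (f : ι → ℝ) (hf : ∀ i, 0 ≤ f i) :
    ∑ i, f i ^ 2 ≤ (∑ i, f i) ^ 2 := by
  rw [pow_two, Finset.sum_mul]
  refine Finset.sum_le_sum (fun i _ => ?_)
  rw [pow_two]
  exact mul_le_mul_of_nonneg_left
    (Finset.single_le_sum (f := f) (fun j _ => hf j) (Finset.mem_univ i)) (hf i)

theorem rows {ι : Type} [Fintype ι] [DecidableEq ι] (A : Matrix ι ι ℝ)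
    (hs : ∀ i j, A i j = A j i) (hn : ∀ i j, 0 ≤ A i j) (k K : ℝ) (hk : 0 < k)
    (h1 : (Fintype.card ι : ℝ) * k ^ 2 ≤ ∑ i, ∑ j, A i j ^ 2)
    (h2 : ∑ i, ∑ j, ((A * A) i j - if i = j then k ^ 2 else 0) ^ 2 ≤ K * k ^ 4)
    (h : ι → ℝ) (hh : ∀ i j, A i j ≤ h i) (ha : ∀ i, ∃ j, A i j = h i) :
    ∑ i, (k ^ 2 - h i ^ 2) ≤ 3 / 2 * K * k ^ 2 := by
  set Q : ι → ℝ := fun z => ∑ j, A z j ^ 2 with hQ
  have hdiag : ∀ z, (A * A) z z = Q z := by
    intro z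
    rw [Matrix.mul_apply]
    refine Finset.sum_congr rfl (fun j _ => ?_)
    rw [hs j z, pow_two]
  have hh0 : ∀ z, 0 ≤ h z := by
    intro z
    obtain ⟨j, hj⟩ := ha z
    rw [← hj]
    exact hn z j
  have hhQ : ∀ z, h z ^ 2 ≤ Q z := by
    intro z
    obtain ⟨j, hj⟩ := ha z
    rw [← hj]
    exact Finset.single_le_sum (f := fun j => A z j ^ 2) (fun j _ => sq_nonneg _) (Finset.mem_univ j)
  have hpt : ∀ i j, (if i = j then (Q i - k ^ 2) ^ 2 - ∑ z, A i z ^ 2 * A z i ^ 2 else 0) +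
      ∑ z, A i z ^ 2 * A z j ^ 2 ≤ ((A * A) i j - if i = j then k ^ 2 else 0) ^ 2 := by
    intro i j
    by_cases hij : i = j
    · subst hij
      rw [if_pos rfl, if_pos rfl, hdiag]
      linarith
    · rw [if_neg hij, if_neg hij, Matrix.mul_apply, zero_add, sub_zero]
      have h3 := rows_aux_sq (fun z => A i z * A z j) (fun z => mul_nonneg (hn _ _) (hn _ _))
      refine le_trans (le_of_eq ?_) h3
      exact Finset.sum_congr rfl (fun z _ => by ring)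
  have hsum : ∑ i, ((Q i - k ^ 2) ^ 2 - ∑ z, A i z ^ 2 * A z i ^ 2) + ∑ z, Q z ^ 2 ≤ K * k ^ 4 := by
    refine le_trans (le_of_eq ?_) ((Finset.sum_le_sum (fun i (_ : i ∈ Finset.univ) =>
      Finset.sum_le_sum (fun j (_ : j ∈ Finset.univ) => hpt i j))).trans h2)
    have e1 : ∀ i, ∑ j, ((if i = j then (Q i - k ^ 2) ^ 2 - ∑ z, A i z ^ 2 * A z i ^ 2 else 0) +
        ∑ z, A i z ^ 2 * A z j ^ 2) =
        ((Q i - k ^ 2) ^ 2 - ∑ z, A i z ^ 2 * A z i ^ 2) + ∑ z, A i z ^ 2 * Q z := by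
      intro i
      rw [Finset.sum_add_distrib, Finset.sum_ite_eq, if_pos (Finset.mem_univ i), Finset.sum_comm]
      congr 1
      refine Finset.sum_congr rfl (fun z _ => ?_)
      rw [← Finset.mul_sum]
    rw [Finset.sum_congr rfl (fun i _ => e1 i), Finset.sum_add_distrib]
    congr 1
    rw [Finset.sum_comm]
    refine Finset.sum_congr rfl (fun z _ => ?_)
    rw [← Finset.sum_mul, pow_two]
    congr 1
    exact Finset.sum_congr rfl (fun i _ => by rw [hs z i])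
  have h4 : ∑ i, ∑ z, A i z ^ 2 * A z i ^ 2 ≤ ∑ i, h i ^ 2 * Q i := by
    refine Finset.sum_le_sum (fun i _ => ?_)
    rw [Finset.mul_sum]
    refine Finset.sum_le_sum (fun z _ => ?_)
    rw [hs z i]
    exact mul_le_mul_of_nonneg_right (pow_le_pow_left₀ (hn _ _) (hh _ _) 2) (sq_nonneg _)
  have key : ∑ i, (Q i - k ^ 2) ^ 2 + ∑ i, Q i * (Q i - h i ^ 2) ≤ K * k ^ 4 := by
    have e2 : ∑ i, Q i * (Q i - h i ^ 2) = ∑ i, Q i ^ 2 - ∑ i, h i ^ 2 * Q i := by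
      rw [← Finset.sum_sub_distrib]
      exact Finset.sum_congr rfl (fun i _ => by ring)
    rw [Finset.sum_sub_distrib] at hsum
    linarith
  have hk2 : 0 < k ^ 2 := by positivity
  have h5 : ∑ i, (Q i - h i ^ 2) ^ 2 ≤ ∑ i, Q i * (Q i - h i ^ 2) := by
    refine Finset.sum_le_sum (fun i _ => ?_)
    rw [pow_two]
    exact mul_le_mul_of_nonneg_right (by linarith [sq_nonneg (h i)]) (by linarith [hhQ i])
  have h6 : k ^ 2 * ∑ i, (Q i - h i ^ 2) ≤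
      ∑ i, Q i * (Q i - h i ^ 2) + (∑ i, (Q i - k ^ 2) ^ 2 + ∑ i, (Q i - h i ^ 2) ^ 2) / 2 := by
    rw [← Finset.sum_add_distrib, Finset.sum_div, ← Finset.sum_add_distrib, Finset.mul_sum]
    refine Finset.sum_le_sum (fun i _ => ?_)
    nlinarith [sq_nonneg ((Q i - k ^ 2) + (Q i - h i ^ 2))]
  have h7 : 0 ≤ ∑ i, (Q i - k ^ 2) ^ 2 := Finset.sum_nonneg (fun i _ => sq_nonneg _)
  have h8 : k ^ 2 * ∑ i, (Q i - h i ^ 2) ≤ k ^ 2 * (3 / 2 * K * k ^ 2) := by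
    calc _ ≤ _ := h6
      _ ≤ 3 / 2 * (K * k ^ 4) := by linarith
      _ = _ := by ring
  have h9 := le_of_mul_le_mul_left h8 hk2
  have h10 : ∑ i, (k ^ 2 - h i ^ 2) = ∑ i, (Q i - h i ^ 2) - (∑ i, Q i - (Fintype.card ι : ℝ) * k ^ 2) := by
    have e3 : (Fintype.card ι : ℝ) * k ^ 2 = ∑ _i : ι, k ^ 2 := by
      rw [Finset.sum_const, Finset.card_univ, nsmul_eq_mul]
    rw [e3, ← Finset.sum_sub_distrib, ← Finset.sum_sub_distrib]
    exact Finset.sum_congr rfl (fun i _ => by ring)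
  rw [h10]
  linarith

end ConfC
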